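import Pool.Agent.W901.FH.Defs
import Pool.Agent.W920.LN.Defs
import Pool.Agent.W920.NL.DefsAdv

/-!
# Predictions with a constant number of help bits: advice and nondeterminism

Polynomial time is Mathlib's `Turing.TM2ComputableInPolyTime` (through `Pool.Agent.NPC.PolyTime`);
`Adv t A qs h` (of `Pool.Agent.W901.FH.Defs`) says that `h` has one entry, a bit or `none`, for every
question of the list `qs`, and that the number of right predictions of membership in `A` differs
from the number of wrong predictions by at least `t`; `Outputs` and `AdvOutputs` (the outputs of
nondeterministic polynomial-time algorithms without and with advice) are those of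
`Pool.Agent.W920.LN.Defs` and `Pool.Agent.W920.NL.DefsAdv`.
-/

set_option autoImplicit false

namespace Pool.Agent.W901.FH

open Pool.Agent.NPC Pool.Agent.H251R5.PQ Pool.Agent.W901.AT
open Pool.Agent.W920.LN (Outputs)
open Pool.Agent.W920.NL (AdvOutputs)

/-- The `m` strings of the list have length at most `m ^ ε`. -/
def Short (ε : ℝ) (qs : List (List Bool)) : Prop :=
  ∀ y ∈ qs, (y.length : ℝ) ≤ (qs.length : ℝ) ^ ε

/-- `A` is predictable with polynomial advice, `k` help bits and advantage `t` on the lists which
satisfy `Q`: there are a polynomial-time algorithm `g` and advice strings `α n` of polynomial length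
such that for all lists with at least `m₀` entries which satisfy `Q` there are `k` bits `u`,
depending on the list in any way, for which `g` computes from the coded list, the advice string for
its length and `u` predictions with advantage `t`. -/
def HelpAdvOn (Q : List (List Bool) → Prop) (k t : ℕ) (A : Set (List Bool)) : Prop :=
  ∃ (g : List Bool → List (Option Bool)) (α : ℕ → List Bool) (p : Polynomial ℕ) (m₀ : ℕ),
    PolyTime (fun z => bits (g z)) ∧ (∀ n, (α n).length ≤ p.eval n) ∧
    ∀ qs : List (List Bool), m₀ ≤ qs.length → Q qs → ∃ u : List Bool, u.length = k ∧
      Adv t A qs (g (pairBits (pairBits (bits qs) (α (bits qs).length)) u))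

/-- `A` is nondeterministically predictable with `k` help bits and advantage `t` on the lists which
satisfy `Q`: there is a total nondeterministic polynomial-time algorithm (every input has at least
one output, possibly many) such that for all lists with at least `m₀` entries which satisfy `Q` there
are `k` bits `u`, depending on the list in any way, for which all outputs on the input `(list, u)`
are predictions with advantage `t`. -/
def NHelpOn (Q : List (List Bool) → Prop) (k t : ℕ) (A : Set (List Bool)) : Prop :=
  ∃ (g : List Bool → Option (List (Option Bool))) (p : Polynomial ℕ) (m₀ : ℕ),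
    PolyTime (fun z => bits (g z)) ∧ (∀ z, ∃ h, Outputs g p z h) ∧
    ∀ qs : List (List Bool), m₀ ≤ qs.length → Q qs → ∃ u : List Bool, u.length = k ∧
      ∀ h, Outputs g p (pairBits (bits qs) u) h → Adv t A qs h

/-- `A` is nondeterministically predictable with polynomial advice, `k` help bits and advantage `t`
on the lists which satisfy `Q`: the same with a nondeterministic polynomial-time algorithm which also
gets an advice string of polynomial length that depends only on the length of its input. -/
def ANHelpOn (Q : List (List Bool) → Prop) (k t : ℕ) (A : Set (List Bool)) : Prop :=
  ∃ (g : List Bool → Option (List (Option Bool))) (a : ℕ → List Bool) (p r : Polynomial ℕ)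
    (m₀ : ℕ), PolyTime (fun z => bits (g z)) ∧ (∀ n, (a n).length ≤ r.eval n) ∧
    (∀ z, ∃ h, AdvOutputs g a p z h) ∧
    ∀ qs : List (List Bool), m₀ ≤ qs.length → Q qs → ∃ u : List Bool, u.length = k ∧
      ∀ h, AdvOutputs g a p (pairBits (bits qs) u) h → Adv t A qs h

/-- All lists. -/
def Every (_ : List (List Bool)) : Prop := True

end Pool.Agent.W901.FH
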