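import Pool.Agent.W901.FH.Eng
import Pool.Agent.W920.LN.Cand

/-!
# Finite help with a context: the engine
-/

set_option autoImplicit false

namespace Pool.Agent.W901.FH

open Pool.Agent.NPC Pool.Agent.H579R2.Spt Pool.Agent.H251R5.PQ Pool.Agent.W901.AT

section

variable {α γ : Type} [TEnc α] [TEnc γ] {E : γ → List (List Bool) → List (List (Option Bool))}
  {qf : List Bool × (ℕ × (ℕ × (ℕ × (ℕ × ℕ)))) → List Bool}

theorem keep_polyC (hE : Poly (fun z : γ × List (List Bool) => E z.1 z.2)) (hq : Poly qf)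
    (K t : ℕ) {e : α → γ} {m P : α → ℕ} {x u : α → List Bool}
    (he : Poly e) (hm : UPoly m) (hP : UPoly P) (hx' : Poly x) (hu : Poly u) :
    Poly (fun y => keep (E (e y)) qf K t (m y) (P y) (x y) (u y)) := by
  unfold keep
  refine NPC.Poly.all (l := fun y => List.range (P y ^ 3))
    (p := fun y s => okv K t (m y) (E (e y) (sess qf (m y) (P y) (x y) (u y).length s))
      (hx (P y) ((4 * m y) ^ (K + 1)) s (u y)))
    (pow_upolyc hP 3).range ?_
  have e1 : Poly (fun q : α × ℕ => q.1) := NPC.Poly.fst NPC.Poly.id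
  have e2 : Poly (fun q : α × ℕ => q.2) := NPC.Poly.snd NPC.Poly.id
  exact okv_poly K t (hm.comp e1) (hx_poly (hP.toPoly.comp e1)
    (pow_polyc (NPC.Poly.mul (NPC.Poly.const 4) (hm.toPoly.comp e1)) (K + 1)) e2 (hu.comp e1))
    (hE.comp (NPC.Poly.pair (he.comp e1) (sess_poly hq (hm.comp e1) (hP.toPoly.comp e1)
      (hx'.comp e1) (NPC.Poly.length (hu.comp e1)) e2)))

theorem nextl_polyC (hE : Poly (fun z : γ × List (List Bool) => E z.1 z.2)) (hq : Poly qf)
    (K t : ℕ) {e : α → γ} {m P : α → ℕ} {x : α → List Bool} {W : α → List (List Bool)}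
    (he : Poly e) (hm : UPoly m) (hP : UPoly P) (hx' : Poly x) (hW : Poly W) :
    Poly (fun y => nextl (E (e y)) qf K t (m y) (P y) (x y) (W y)) := by
  unfold nextl
  have e1 : Poly (fun q : α × List Bool => q.1) := NPC.Poly.fst NPC.Poly.id
  refine take_poly' (NPC.Poly.filter (l := fun y => children (W y))
    (p := fun y u => keep (E (e y)) qf K t (m y) (P y) (x y) u) (children_poly hW) ?_) hP.toPoly
  exact keep_polyC hE hq K t (he.comp e1) (hm.comp e1) (hP.comp e1) (hx'.comp e1)
    (NPC.Poly.snd NPC.Poly.id)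

theorem iter_polyC (hE : Poly (fun z : γ × List (List Bool) => E z.1 z.2)) (hq : Poly qf)
    (K t : ℕ) {e : α → γ} {m P N : α → ℕ} {x : α → List Bool} (he : Poly e)
    (hm : UPoly m) (hP : UPoly P) (hP1 : ∀ a, 1 ≤ P a) (hN : UPoly N) (hx' : Poly x) :
    Poly (fun y => (nextl (E (e y)) qf K t (m y) (P y) (x y))^[N y] [[]]) := by
  obtain ⟨qM', hqM'⟩ := Poly.sz_le hP
  obtain ⟨qp', hqp'⟩ := Poly.sz_le hN
  have hMle : ∀ a, P a ≤ qM'.eval (sz a) := by
    intro a
    have h1 := hqM' a
    have h2 := length_lt_sz (List.replicate (P a) ())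
    rw [List.length_replicate] at h2
    omega
  have hple : ∀ a, N a ≤ qp'.eval (sz a) := by
    intro a
    have h1 := hqp' a
    have h2 := length_lt_sz (List.replicate (N a) ())
    rw [List.length_replicate] at h2
    omega
  have hstep : Poly (fun q : α × List (List Bool) =>
      nextl (E (e q.1)) qf K t (m q.1) (P q.1) (x q.1) q.2) := by
    have e1 : Poly (fun q : α × List (List Bool) => q.1) := NPC.Poly.fst NPC.Poly.id
    have e2 : Poly (fun q : α × List (List Bool) => q.2) := NPC.Poly.snd NPC.Poly.id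
    exact nextl_polyC hE hq K t (he.comp e1) (hm.comp e1) (hP.comp e1) (hx'.comp e1) e2
  have h1 := NPC.Poly.iterLen (l := fun a => List.replicate (N a) ())
    (s := fun _ : α => ([[]] : List (List Bool)))
    (F := fun a s => nextl (E (e a)) qf K t (m a) (P a) (x a) s) hN
    (NPC.Poly.const _) hstep
    (qM' * (Polynomial.C 4 * qp' + 2) + 1) (by
      intro a i hi
      rw [List.length_replicate] at hi
      obtain ⟨h2, h3, _⟩ := nextl_inv (E (e a)) qf K t (m a) (P a) (x a) (hP1 a) i
      set s := (nextl (E (e a)) qf K t (m a) (P a) (x a))^[i] [[]]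
      have h4 := sz_le_length_mul s (4 * i + 1) (fun u hu => by
        have := sz_listBool_le u
        rw [h2 u hu] at this
        exact this)
      have h7 := hMle a
      have h8 := hple a
      simp only [Polynomial.eval_add, Polynomial.eval_mul, Polynomial.eval_C, Polynomial.eval_one,
        Polynomial.eval_ofNat]
      have h9 : s.length ≤ qM'.eval (sz a) := h3.trans h7
      have h10 : 4 * i + 1 + 1 ≤ 4 * qp'.eval (sz a) + 2 := by omega
      have h11 := Nat.mul_le_mul h9 h10
      omega)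
  exact h1.congr fun a => by rw [List.length_replicate]

theorem allc_polyC (hE : Poly (fun z : γ × List (List Bool) => E z.1 z.2)) (hq : Poly qf)
    (K t : ℕ) {m P n : List Bool → ℕ}
    (hm : UPoly m) (hP : UPoly P) (hP1 : ∀ a, 1 ≤ P a) (hn : UPoly n) :
    Poly (fun z : γ × List Bool => allc (E z.1) qf K t (m z.2) (P z.2) (n z.2) z.2) := by
  unfold allc
  have f1 : Poly (fun z : γ × List Bool => z.1) := NPC.Poly.fst NPC.Poly.id
  have f2 : Poly (fun z : γ × List Bool => z.2) := NPC.Poly.snd NPC.Poly.id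
  refine NPC.Poly.flatMap (l := fun z : γ × List Bool => List.range (n z.2 + 1))
    (F := fun z j => (nextl (E z.1) qf K t (m z.2) (P z.2) z.2)^[min j (n z.2)] [[]])
    ((hn.comp f2).add (UPoly.const 1)).range ?_
  have e1 : Poly (fun q : (γ × List Bool) × ℕ => q.1) := NPC.Poly.fst NPC.Poly.id
  have e2 : Poly (fun q : (γ × List Bool) × ℕ => q.2) := NPC.Poly.snd NPC.Poly.id
  have u3 : UPoly (fun q : (γ × List Bool) × ℕ => min q.2 (n q.1.2)) :=
    UPoly.of_le (NPC.Poly.min e2 (hn.comp (f2.comp e1)).toPoly) (hn.comp (f2.comp e1))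
      (fun _ => min_le_right _ _)
  exact iter_polyC hE hq K t (f1.comp e1) (hm.comp (f2.comp e1)) (hP.comp (f2.comp e1))
    (fun a => hP1 a.1.2) u3 (f2.comp e1)

theorem allc_lengthH (E : List (List Bool) → List (List (Option Bool)))
    (qf : List Bool × (ℕ × (ℕ × (ℕ × (ℕ × ℕ)))) → List Bool) (K t m P n : ℕ) (hP : 1 ≤ P)
    (x : List Bool) : (allc E qf K t m P n x).length ≤ (n + 1) * P := by
  unfold allc
  rw [List.length_flatMap]
  refine (List.sum_le_card_nsmul _ P ?_).trans ?_
  · intro y hy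
    obtain ⟨j, _, rfl⟩ := List.mem_map.1 hy
    exact (nextl_inv E qf K t m P x hP _).2.1
  · rw [List.length_map, List.length_range, smul_eq_mul]

/-- all lists of questions of the search -/
def allS (qf : List Bool × (ℕ × (ℕ × (ℕ × (ℕ × ℕ)))) → List Bool) (m P n : ℕ) (x : List Bool) :
    List (List (List Bool)) :=
  (List.range (n + 1)).flatMap fun j => (List.range (P ^ 3)).map fun s => sess qf m P x j s

theorem allS_poly (hq : Poly qf) {m P n : List Bool → ℕ} (hm : UPoly m) (hP : UPoly P)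
    (hn : UPoly n) : Poly (fun x => allS qf (m x) (P x) (n x) x) := by
  unfold allS
  refine NPC.Poly.flatMap (l := fun x => List.range (n x + 1))
    (F := fun x j => (List.range (P x ^ 3)).map fun s => sess qf (m x) (P x) x j s)
    (hn.add (UPoly.const 1)).range ?_
  have e1 : Poly (fun q : List Bool × ℕ => q.1) := NPC.Poly.fst NPC.Poly.id
  have e2 : Poly (fun q : List Bool × ℕ => q.2) := NPC.Poly.snd NPC.Poly.id
  refine NPC.Poly.map (l := fun q : List Bool × ℕ => List.range (P q.1 ^ 3))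
    (F := fun q s => sess qf (m q.1) (P q.1) q.1 q.2 s)
    (pow_upolyc (hP.comp e1) 3).range ?_
  have f1 : Poly (fun q : (List Bool × ℕ) × ℕ => q.1) := NPC.Poly.fst NPC.Poly.id
  have f2 : Poly (fun q : (List Bool × ℕ) × ℕ => q.2) := NPC.Poly.snd NPC.Poly.id
  exact sess_poly hq (hm.comp (e1.comp f1)) (hP.toPoly.comp (e1.comp f1)) (e1.comp f1)
    (e2.comp f1) f2

end

/-- **The engine with a context.** -/
theorem engineC (hHR : P_HR) (hSJ : P_SURJ) {A : Set (List Bool)} {K t c m₀ : ℕ}
    (hLD : LinDisc K t) {γ : Type} [TEnc γ]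
    {E : γ → List (List Bool) → List (List (Option Bool))}
    (hE : Poly (fun z : γ × List (List Bool) => E z.1 z.2)) (hEK : ∀ e qs, (E e qs).length ≤ K)
    {qf : List Bool × (ℕ × (ℕ × (ℕ × (ℕ × ℕ)))) → List Bool}
    (hq : Poly qf) (pp : Polynomial ℕ) :
    ∃ (G : γ → List Bool → List (List Bool)) (S : List Bool → List (List (List Bool)))
      (r : Polynomial ℕ),
      Poly (fun z : γ × List Bool => G z.1 z.2) ∧ Poly S ∧
      (∀ e x, (G e x).length ≤ r.eval x.length) ∧
      (∀ x, ∀ qs ∈ S x, m₀ ≤ qs.length ∧ ∀ q ∈ qs, q.length ^ c ≤ qs.length) ∧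
      ∀ e x w, (∀ qs ∈ S x, ∃ h ∈ E e qs, h.length = qs.length ∧
          (t : ℤ) ≤ |cor h (answers A qs)|) → w.length ≤ pp.eval x.length →
        (∀ m P j s i : ℕ, qf (x, (m, (P, (j, (s, i))))) ∈ A ↔ Lbit K m P j s i w = true) →
          w ∈ G e x := by
  classical
  obtain ⟨p1, hp1⟩ := hq.sz_le
  set p3 : Polynomial ℕ := Polynomial.C 100 * Polynomial.X ^ 4 + 100 with hp3
  obtain ⟨e1, he1⟩ := exists_pow_bound (p1.comp p3)
  set g : ℕ := e1 * c + 1 with hg
  set C : ℕ := m₀ + 8 * (K + 1) * (g + 4) + 20 with hC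
  set n : List Bool → ℕ := fun x => pp.eval x.length + 1 with hn
  set b : List Bool → ℕ := fun x => x.length + n x + C with hb
  have hnU : UPoly n := ((UPoly.length NPC.Poly.id).eval pp).add (UPoly.const 1)
  have hbU : UPoly b := ((UPoly.length NPC.Poly.id).add hnU).add (UPoly.const C)
  set m : List Bool → ℕ := fun x => (b x) ^ g with hm
  set M : List Bool → ℕ := fun x => n x * (2 * ((4 * m x) ^ (K + 1)) ^ 2 + 1) ^ 2 with hM
  have hmU : UPoly m := pow_upolyc hbU g
  have hMU : UPoly M := hnU.mul (pow_upolyc (((UPoly.const 2).mul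
    (pow_upolyc (pow_upolyc ((UPoly.const 4).mul hmU) (K + 1)) 2)).add (UPoly.const 1)) 2)
  have hPU : UPoly (fun x => prm (M x)) := prm_poly hMU
  have hM0 : ∀ x, M x ≠ 0 := fun x => by
    have : 0 < M x := by
      simp only [hM, hn]
      positivity
    omega
  -- sizes
  have hsizes : ∀ x, ∀ j ≤ n x, ∀ s < prm (M x) ^ 3, ∀ i < m x,
      (qf (x, (m x, (prm (M x), (j, (s, i)))))).length ^ c ≤ m x := by
    intro x
    obtain ⟨hPp, hPb1, hPb2⟩ := prm_spec (hM0 x)
    set P : ℕ := prm (M x) with hPdef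
    have hbx : C ≤ b x := Nat.le_add_left _ _
    have hnb : n x ≤ b x := by simp only [hb]; omega
    have hxb : x.length ≤ b x := by simp only [hb]; omega
    have hb2 : 20 ≤ b x := by omega
    have hmb : b x ≤ m x := Nat.le_self_pow (by omega) _
    have hKb : 8 * (K + 1) * (g + 4) ≤ b x := by omega
    have hm2 : 4 * m x ≤ 2 ^ (b x * g + 2) := by
      have h1 : b x < 2 ^ b x := Nat.lt_two_pow_self
      have h2 : (b x) ^ g ≤ (2 ^ b x) ^ g := Nat.pow_le_pow_left h1.le _
      calc 4 * m x ≤ 4 * (2 ^ b x) ^ g := Nat.mul_le_mul_left _ h2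
        _ = 2 ^ (b x * g + 2) := by rw [← pow_mul, pow_add]; ring
    have hF2 : (4 * m x) ^ (K + 1) ≤ 2 ^ ((b x * g + 2) * (K + 1)) := by
      calc (4 * m x) ^ (K + 1) ≤ (2 ^ (b x * g + 2)) ^ (K + 1) := Nat.pow_le_pow_left hm2 _
        _ = _ := by rw [← pow_mul]
    have hM2 : M x ≤ 2 ^ (b x + 4 * ((b x * g + 2) * (K + 1)) + 4) := by
      have h1 : n x ≤ 2 ^ b x := hnb.trans Nat.lt_two_pow_self.le
      have h2 : 2 * ((4 * m x) ^ (K + 1)) ^ 2 + 1 ≤ 2 ^ (2 * ((b x * g + 2) * (K + 1)) + 2) := by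
        set Y := (b x * g + 2) * (K + 1) with hY
        have h3 : ((4 * m x) ^ (K + 1)) ^ 2 ≤ 2 ^ (2 * Y) := by
          calc ((4 * m x) ^ (K + 1)) ^ 2 ≤ (2 ^ Y) ^ 2 := Nat.pow_le_pow_left hF2 2
            _ = 2 ^ (2 * Y) := by rw [← pow_mul, mul_comm]
        have h4 : 1 ≤ 2 ^ (2 * Y) := Nat.one_le_two_pow
        have h5 : 2 ^ (2 * Y + 2) = 4 * 2 ^ (2 * Y) := by rw [pow_add]; ring
        omega
      calc M x ≤ 2 ^ b x * (2 ^ (2 * ((b x * g + 2) * (K + 1)) + 2)) ^ 2 :=
            Nat.mul_le_mul h1 (Nat.pow_le_pow_left h2 2)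
        _ = 2 ^ (b x + 4 * ((b x * g + 2) * (K + 1)) + 4) := by
            generalize (b x * g + 2) * (K + 1) = Y
            have e : b x + (2 * Y + 2) * 2 = b x + 4 * Y + 4 := by ring
            rw [← pow_mul, ← pow_add, e]
    have hexp : b x + 4 * ((b x * g + 2) * (K + 1)) + 4 + 1 ≤ b x * b x := by
      have h1 : 4 * ((b x * g + 2) * (K + 1)) ≤ b x * (4 * (K + 1) * (g + 1)) := by
        have e1 : 4 * ((b x * g + 2) * (K + 1)) = b x * (4 * (K + 1) * g) + 2 * (4 * (K + 1)) := by
          ring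
        have e2 : b x * (4 * (K + 1) * (g + 1)) =
            b x * (4 * (K + 1) * g) + b x * (4 * (K + 1)) := by
          ring
        have e3 : 2 * (4 * (K + 1)) ≤ b x * (4 * (K + 1)) := Nat.mul_le_mul_right _ (by omega)
        omega
      have h2 : b x + 5 ≤ b x * 2 := by omega
      have h3 : 4 * (K + 1) * (g + 1) + 2 ≤ b x := by
        have e1 : 8 * (K + 1) * (g + 4) = 4 * (K + 1) * (g + 1) + (4 * (K + 1) * (g + 7)) := by
          ring
        have e2 : 2 ≤ 4 * (K + 1) * (g + 7) := by nlinarith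
        omega
      have h4 := Nat.mul_le_mul_left (b x) h3
      have h5 : b x * (4 * (K + 1) * (g + 1) + 2) =
          b x * (4 * (K + 1) * (g + 1)) + b x * 2 := by ring
      omega
    have hPsz : P ≤ 2 ^ (b x * b x) := by
      have h1 : 2 * M x ≤ 2 ^ (b x + 4 * ((b x * g + 2) * (K + 1)) + 4 + 1) := by
        rw [pow_succ]; omega
      exact hPb2.trans (h1.trans (Nat.pow_le_pow_right (by norm_num) hexp))
    have hmP : m x ≤ P := by
      have h1 : m x ≤ (4 * m x) ^ (K + 1) := by
        calc m x ≤ 4 * m x := by omega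
          _ ≤ _ := Nat.le_self_pow (by omega) _
      have h2 : (4 * m x) ^ (K + 1) ≤ M x := by
        set F := (4 * m x) ^ (K + 1)
        have h3 : F ≤ F ^ 2 := Nat.le_self_pow (by norm_num) _
        have h4 : 2 * F ^ 2 + 1 ≤ (2 * F ^ 2 + 1) ^ 2 := Nat.le_self_pow (by norm_num) _
        have h5 : 1 * (2 * F ^ 2 + 1) ^ 2 ≤ n x * (2 * F ^ 2 + 1) ^ 2 :=
          Nat.mul_le_mul_right _ (by simp only [hn]; omega)
        have h6 : F ≤ 1 * (2 * F ^ 2 + 1) ^ 2 := by
          clear * - h3 h4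
          omega
        exact h6.trans h5
      exact (h1.trans h2).trans hPb1.le
    intro j hj s hs i hi
    have hszz : sz (x, (m x, (P, (j, (s, i))))) ≤ p3.eval (b x) := by
      have s1 := sz_listBool_le x
      have hP4 : P < 2 ^ (b x * b x + 1) := by
        rw [pow_succ]; have := Nat.one_le_two_pow (n := b x * b x); omega
      have hs4 : s < 2 ^ (3 * (b x * b x)) := by
        calc s < P ^ 3 := hs
          _ ≤ (2 ^ (b x * b x)) ^ 3 := Nat.pow_le_pow_left hPsz 3
          _ = _ := by rw [← pow_mul, mul_comm]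
      have s3 : sz (m x) ≤ 4 * (b x * b x + 1) + 1 := (sz_nat_le _).trans (by
        have := size_le_of_lt_two_pow (lt_of_le_of_lt hmP hP4); omega)
      have s4 : sz P ≤ 4 * (b x * b x + 1) + 1 := (sz_nat_le P).trans (by
        have := size_le_of_lt_two_pow hP4; omega)
      have s5 : sz j ≤ 4 * b x + 1 := (sz_nat_le j).trans (by
        have := NPC.Poly.size_le_self j; omega)
      have s6 : sz s ≤ 4 * (3 * (b x * b x)) + 1 := (sz_nat_le s).trans (by
        have := size_le_of_lt_two_pow hs4; omega)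
      have s7 : sz i ≤ 4 * (b x * b x + 1) + 1 := (sz_nat_le i).trans (by
        have := size_le_of_lt_two_pow ((hi.trans_le hmP).trans hP4); omega)
      rw [sz_pair, sz_pair, sz_pair, sz_pair, sz_pair, hp3]
      simp only [Polynomial.eval_add, Polynomial.eval_mul, Polynomial.eval_C, Polynomial.eval_X,
        Polynomial.eval_pow, Polynomial.eval_ofNat]
      have h1 : b x ≤ b x * b x := Nat.le_mul_self _
      have h2 : b x * b x ≤ b x ^ 4 := by
        calc b x * b x = b x ^ 2 := by ring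
          _ ≤ b x ^ 4 := Nat.pow_le_pow_right (by omega) (by norm_num)
      omega
    have h3 := (hp1 _).trans (eval_mono p1 hszz)
    have h4 := length_lt_sz (qf (x, (m x, (P, (j, (s, i))))))
    have h5 := he1 (b x) (by omega)
    rw [Polynomial.eval_comp] at h5
    calc (qf (x, (m x, (P, (j, (s, i)))))).length ^ c
        ≤ ((b x) ^ e1) ^ c := Nat.pow_le_pow_left (by omega) _
      _ = (b x) ^ (e1 * c) := by rw [← pow_mul]
      _ ≤ (b x) ^ g := Nat.pow_le_pow_right (by omega) (by omega)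
  obtain ⟨rn, hrn⟩ := Pool.Agent.W920.LN.upoly_bound hnU
  obtain ⟨rP, hrP⟩ := Pool.Agent.W920.LN.upoly_bound hPU
  refine ⟨fun e x => allc (E e) qf K t (m x) (prm (M x)) (n x) x,
    fun x => allS qf (m x) (prm (M x)) (n x) x, (rn + 1) * rP,
    allc_polyC hE hq K t hmU hPU (fun x => (prm_spec (hM0 x)).1.pos) hnU,
    allS_poly hq hmU hPU hnU, ?_, ?_, ?_⟩
  · intro e x
    refine (allc_lengthH _ _ _ _ _ _ _ (prm_spec (hM0 x)).1.pos _).trans ?_
    rw [Polynomial.eval_mul, Polynomial.eval_add, Polynomial.eval_one]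
    exact Nat.mul_le_mul (Nat.add_le_add_right (hrn x) 1) (hrP x)
  · intro x qs hqs
    obtain ⟨j, hj, hqs⟩ := List.mem_flatMap.1 hqs
    obtain ⟨s, hs, rfl⟩ := List.mem_map.1 hqs
    rw [List.mem_range] at hj hs
    have hslen : (sess qf (m x) (prm (M x)) x j s).length = m x := by simp [sess]
    have hmb : b x ≤ m x := Nat.le_self_pow (by omega) _
    have hbx : C ≤ b x := Nat.le_add_left _ _
    refine ⟨by rw [hslen]; omega, fun q hq' => ?_⟩
    rw [hslen]
    obtain ⟨i, hi, rfl⟩ := List.mem_map.1 hq'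
    exact hsizes x j (by omega) s hs i (List.mem_range.1 hi)
  · intro e x w hgood hwlen hlab
    obtain ⟨hPp, hPb1, hPb2⟩ := prm_spec (hM0 x)
    have hbx : C ≤ b x := Nat.le_add_left _ _
    have hmb : b x ≤ m x := Nat.le_self_pow (by omega) _
    have hwn : w.length ≤ n x := by
      simp only [hn]
      omega
    refine allc_correct hHR hSJ hLD (by omega) hPp x (n x) (by simp only [hn]; omega) (hEK e) hPb1
      w hwn ?_
    intro j hj s hs
    have hslen : (sess qf (m x) (prm (M x)) x j s).length = m x := by simp [sess]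
    obtain ⟨h, hh1, hh2, hh3⟩ := hgood (sess qf (m x) (prm (M x)) x j s)
      (List.mem_flatMap.2 ⟨j, List.mem_range.2 (by omega), List.mem_map.2
        ⟨s, List.mem_range.2 hs, rfl⟩⟩)
    refine ⟨h, hh1, hh2.trans hslen, ?_⟩
    have hans : answers A (sess qf (m x) (prm (M x)) x j s) =
        wd (m x) (K + 1) (hx (prm (M x)) ((4 * m x) ^ (K + 1)) s (w.take j)) := by
      unfold answers sess wd
      rw [List.map_map]
      refine List.map_congr_left fun i _ => ?_
      have h1 := hlab (m x) (prm (M x)) j s i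
      change decide (qf (x, (m x, (prm (M x), (j, (s, i))))) ∈ A) = _
      unfold Lbit at h1
      by_cases h2 : lb (4 * m x) (K + 1)
          (hx (prm (M x)) ((4 * m x) ^ (K + 1)) s (w.take j)) i = true
      · rw [h2]; exact decide_eq_true (h1.2 h2)
      · rw [Bool.not_eq_true] at h2
        rw [h2]
        refine decide_eq_false fun h3 => ?_
        rw [h1.1 h3] at h2
        exact absurd h2 (by simp)
    rw [hans] at hh3
    exact hh3

end Pool.Agent.W901.FH
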