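import Pool.Agent.W901.FC.DefsH
import Pool.Agent.W901.FC.CoreH
import Pool.Agent.W920.NL.LawAdv
import Pool.Agent.W901.NU.MainC
import Pool.Agent.W901.FH.Law

/-!
# Finite help and `NP ⊆ P/poly`
-/

set_option autoImplicit false

namespace Pool.Agent.W901.FH

open Pool.Agent.NPC Pool.Agent.H251R5.PQ Pool.Agent.W901.AT Pool.Agent.H579R2.Spt
open Pool.Agent.W920.NL (Rd kys avs avs_getD avs_sz unpair_fst_length)
open Pool.Agent.W901.NU (InPpoly tabl tabl_getD sz_tabl gadv gadv_poly gadv_pair)
open Pool.Agent.W21.FH (allU mem_allU)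

/-- the length condition -/
theorem short_of {ε : ℝ} {c : ℕ} (hc1 : 1 ≤ (c : ℝ) * ε) {qs : List (List Bool)}
    (hm : 1 ≤ qs.length) (h : ∀ q ∈ qs, q.length ^ c ≤ qs.length) : Short ε qs := by
  intro y hy
  have hm1 : (1 : ℝ) ≤ qs.length := by exact_mod_cast hm
  have h3 : (y.length : ℝ) ^ c ≤ qs.length := by exact_mod_cast h y hy
  have h4 : (qs.length : ℝ) ≤ ((qs.length : ℝ) ^ ε) ^ c := by
    rw [← Real.rpow_natCast, ← Real.rpow_mul (by positivity)]
    calc (qs.length : ℝ) = (qs.length : ℝ) ^ (1 : ℝ) := (Real.rpow_one _).symm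
      _ ≤ _ := Real.rpow_le_rpow_of_exponent_le hm1 (by linarith)
  have hc0 : c ≠ 0 := by
    rintro rfl
    norm_num at hc1
  exact le_of_pow_le_pow_left₀ hc0 (by positivity) (h3.trans h4)

theorem exists_c {ε : ℝ} (hε : 0 < ε) : ∃ c : ℕ, 1 ≤ (c : ℝ) * ε := by
  obtain ⟨c, hc⟩ := exists_nat_ge (1 / ε)
  exact ⟨c, by rwa [div_le_iff₀ hε] at hc⟩

/-- exact answers -/
theorem adv_self {t : ℕ} {A : Set (List Bool)} {qs : List (List Bool)} (h : t ≤ qs.length) :
    Adv t A qs ((answers A qs).map some) := by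
  have hl : (answers A qs).length = qs.length := by simp [answers]
  refine ⟨by rw [List.length_map, hl], ?_⟩
  rw [excess_self, hl, abs_of_nonneg (by positivity)]
  exact_mod_cast h

/-- the reader of a predictor with advice -/
def rdP (g : List Bool → List (Option Bool)) : Rd := fun q =>
  some [g (pairBits (pairBits (unpair q.2.1).1 (q.1.getD (unpair q.2.1).1.length []))
    (unpair q.2.1).2)]

theorem rdP_poly {g : List Bool → List (Option Bool)} (hg : NPC.Poly g) : NPC.Poly (rdP g) := by
  have e1 : NPC.Poly (fun q : List (List Bool) × (List Bool × List Bool) => (unpair q.2.1).1) :=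
    NPC.Poly.fst (poly_unpair.comp (NPC.Poly.fst (NPC.Poly.snd NPC.Poly.id)))
  have e2 : NPC.Poly (fun q : List (List Bool) × (List Bool × List Bool) => (unpair q.2.1).2) :=
    NPC.Poly.snd (poly_unpair.comp (NPC.Poly.fst (NPC.Poly.snd NPC.Poly.id)))
  have ea : NPC.Poly (fun q : List (List Bool) × (List Bool × List Bool) =>
      q.1.getD (unpair q.2.1).1.length []) :=
    NPC.Poly.getD (NPC.Poly.fst NPC.Poly.id) (NPC.Poly.length e1) (NPC.Poly.const [])
  exact NPC.Poly.some (NPC.Poly.cons (hg.comp (H622R2.poly_pairBits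
    (H622R2.poly_pairBits e1 ea) e2)) (NPC.Poly.const []))

/-- A predictor with advice and help bits of an `NP`-hard set gives `NP ⊆ P/poly`. -/
theorem ppoly_of_help (hHR : P_HR) (hSJ : P_SURJ) (hLN : P_LABN) {A : Set (List Bool)}
    (hA : NPHard A) {k t : ℕ} (hLD : LinDisc ((2 ^ k : ℕ)) t) {ε : ℝ} (hε : 0 < ε)
    (h : HelpAdvOn (Short ε) k t A) {L : Set (List Bool)} (hL : InNP L) : InPpoly L := by
  obtain ⟨g, α, p, m₀, hg, hα, hX⟩ := h
  obtain ⟨c, hc⟩ := exists_c hε
  obtain ⟨V, Nk, hV, hs, hn⟩ := core_detH (c := c) (m₀ := max m₀ 1) hHR hSJ hLN A hA hLD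
    (rdP_poly (poly_of_bits' hg)) L hL
  refine ⟨fun y => [V ((unpair y).1, dl (unpair y).2)], fun n => bits (avs α (Nk.eval n)),
    (Nk + 1) * (Polynomial.C 4 * p.comp Nk + 2) + 1, ?_, fun n => ?_, fun x => ?_⟩
  · refine PIso.poly_iff.1 ?_
    exact NPC.Poly.cons (hV.comp (NPC.Poly.pair (NPC.Poly.fst poly_unpair)
      (dl_poly.comp (NPC.Poly.snd poly_unpair)))) (NPC.Poly.const [])
  · rw [bits_length]
    have h1 := avs_sz hα (Nk.eval n)
    simp only [Polynomial.eval_add, Polynomial.eval_mul, Polynomial.eval_C, Polynomial.eval_comp,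
      Polynomial.eval_one, Polynomial.eval_ofNat]
    exact h1
  · simp only [unpair_pairBits, dl_bits, List.cons.injEq, and_true]
    constructor
    · intro hx
      refine hs x _ ?_ hx
      intro qs hq1 hq2 hq3
      have hm : 1 ≤ qs.length := (le_max_right _ _).trans hq1
      obtain ⟨u, hu, hadv⟩ := hX qs ((le_max_left _ _).trans hq1) (short_of hc hm hq2)
      have hkey : pairBits (bits qs) u ∈ kys (fun _ => allU k) qs :=
        List.mem_map.2 ⟨u, mem_allU k u hu, rfl⟩
      have hkN := hq3 _ hkey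
      refine ⟨_, hkey, fun w l hl => ?_⟩
      unfold rdP at hl
      simp only [unpair_pairBits] at hl
      have hlen : (bits qs).length ≤ Nk.eval x.length := by
        have h1 := unpair_fst_length (pairBits (bits qs) u)
        rw [unpair_pairBits] at h1
        exact h1.trans hkN
      rw [avs_getD α hlen] at hl
      refine ⟨_, (Option.some.inj hl).symm, hadv.1, ?_⟩
      rw [← excess_eq_cor]
      exact hadv.2
    · intro hVx
      by_contra hx
      have h1 := hn x (avs α (Nk.eval x.length)) (fun z _ => rfl) hx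
      rw [hVx] at h1
      exact absurd h1 (by simp)

/-- Sets in `P/poly` are predictable with advice with any advantage. -/
theorem helpAdv_of_inPpoly {k t : ℕ} {A : Set (List Bool)} (hA : InPpoly A) :
    HelpAdvOn Every k t A := by
  classical
  obtain ⟨V, α, p, hV, hα, hV2⟩ := hA
  refine ⟨gadv V, fun n => bits (tabl α n),
    (Polynomial.X + 1) * (Polynomial.C 4 * p + 2) + 1, t, polyTime_bits (gadv_poly hV),
    fun n => ?_, fun qs hqs _ => ⟨List.replicate k false, List.length_replicate, ?_⟩⟩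
  · rw [bits_length]
    refine (sz_tabl hα n).trans (le_of_eq ?_)
    simp
  · have h1 : gadv V (pairBits (pairBits (bits qs) (bits (tabl α (bits qs).length)))
        (List.replicate k false)) = (answers A qs).map some := by
      unfold answers
      rw [gadv_pair, List.map_map]
      refine List.map_congr_left fun y hy => ?_
      have hyl : y.length ≤ (bits qs).length := by
        rw [bits_length]
        have h1 := sz_le_of_mem hy
        have h2 := length_lt_sz y
        omega
      rw [tabl_getD α hyl]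
      have h2 : (decide (V (pairBits y (α y.length)) = [true])) = decide (y ∈ A) :=
        decide_eq_decide.2 (hV2 y).symm
      change some (decide (V (pairBits y (α y.length)) = [true])) = some (decide (y ∈ A))
      rw [h2]
    rw [h1]
    exact adv_self hqs

/-- **The law of help bits for `NP` and `P/poly`.** -/
theorem help_law_ppoly : ∃ C : ℕ, ∀ (k t : ℕ) (ε : ℝ),
    (0 < ε → C * 2 ^ k ≤ t ^ 2 ∨ (k + 1) * 2 ^ (k + 1) ≤ t ^ 2 → List.TFAE
      [∀ L : Set (List Bool), InNP L → InPpoly L,
        ∃ A : Set (List Bool), NPHard A ∧ HelpAdvOn (Short ε) k t A,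
        ∀ A : Set (List Bool), InNP A → HelpAdvOn Every k t A]) ∧
    ((t - 1) ^ 2 < 2 ^ k → ∀ A : Set (List Bool), HelpAll k t A) := by
  obtain ⟨C, _, hC⟩ := W935.FH.lda
  refine ⟨C, fun k t ε => ⟨fun hε hkt => ?_, fun h A => free_help h A⟩⟩
  have hLD := linDisc_of hC hkt
  have hHR : P_HR := W377.FH.hr W320.FH.bu W12.FH.wtt
  tfae_have 1 → 3 := fun h A hA => helpAdv_of_inPpoly (h A hA)
  tfae_have 3 → 2 := fun h => by
    obtain ⟨hA1, hA2⟩ := Pool.Agent.NPC.H545KS.sat_complete
    obtain ⟨g, α, p, m₀, hg, hα, hX⟩ := h _ hA1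
    exact ⟨_, hA2, g, α, p, m₀, hg, hα, fun qs hqs _ => hX qs hqs trivial⟩
  tfae_have 2 → 1 := fun ⟨A, hA, h⟩ L hL =>
    ppoly_of_help hHR W12.FH.surj W762.FH.labn hA hLD hε h hL
  tfae_finish

end Pool.Agent.W901.FH
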