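import Pool.Agent.W901.FC.LawA

/-!
# Finite help and `coNP ⊆ NP/poly`
-/

set_option autoImplicit false

namespace Pool.Agent.W901.FH

open Pool.Agent.NPC Pool.Agent.H251R5.PQ Pool.Agent.W901.AT Pool.Agent.H579R2.Spt
open Pool.Agent.W920.LN (Tb lk inNP_of)
open Pool.Agent.W920.NL (Rd kys avs avs_getD avs_sz unpair_fst_length rdV rdV_poly rdV_some
  InNPPoly AdvOutputs Ck ckV ckV_poly pairBits_len gg gg_poly gg_sound gg_complete
  lst lst_le)
open Pool.Agent.W21.FH (allU mem_allU)

/-- A nondeterministic predictor with advice and help bits of an `NP`-hard set puts the complements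
of `NP` sets in `NP/poly`. -/
theorem inNPPoly_of_help (hHR : P_HR) (hSJ : P_SURJ) (hLN : P_LABN) {A : Set (List Bool)}
    (hA : NPHard A) {k t : ℕ} (hLD : LinDisc ((2 ^ k : ℕ)) t) {ε : ℝ} (hε : 0 < ε)
    (h : ANHelpOn (Short ε) k t A) {L : Set (List Bool)} (hL : InNP L) : InNPPoly Lᶜ := by
  classical
  obtain ⟨g, a, p, r, m₀, hg, ha, hT, hX⟩ := h
  obtain ⟨c, hc⟩ := exists_c hε
  obtain ⟨V, Nk, q, hV, hs, hcm⟩ := coreH (c := c) (m₀ := max m₀ 1) hHR hSJ hLN A hA hLD
    (rdV_poly (poly_of_bits' hg) p) L hL p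
  have hRp : NPC.Poly (fun y : List Bool × List Tb =>
      V ((unpair y.1).1, (dl (unpair y.1).2, y.2))) := by
    have e1 : NPC.Poly (fun y : List Bool × List Tb => (unpair y.1).1) :=
      NPC.Poly.fst (poly_unpair.comp (NPC.Poly.fst NPC.Poly.id))
    have e2 : NPC.Poly (fun y : List Bool × List Tb => dl (unpair y.1).2) :=
      dl_poly.comp (NPC.Poly.snd (poly_unpair.comp (NPC.Poly.fst NPC.Poly.id)))
    exact hV.comp (NPC.Poly.pair e1 (NPC.Poly.pair e2 (NPC.Poly.snd NPC.Poly.id)))
  refine ⟨{y | ∃ tbs : List Tb, sz tbs ≤ q.eval y.length ∧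
      V ((unpair y).1, (dl (unpair y).2, tbs)) = true},
    fun n => bits (avs a (Nk.eval n)), (Nk + 1) * (Polynomial.C 4 * r.comp Nk + 2) + 1,
    inNP_of (β := List Tb) hRp q fun y => Iff.rfl, fun n => ?_, fun x => ?_⟩
  · rw [bits_length]
    have h1 := avs_sz ha (Nk.eval n)
    simp only [Polynomial.eval_add, Polynomial.eval_mul, Polynomial.eval_C, Polynomial.eval_comp,
      Polynomial.eval_one, Polynomial.eval_ofNat]
    exact h1
  · change x ∈ Lᶜ ↔ ∃ tbs : List Tb, sz tbs ≤ q.eval _ ∧ V ((unpair _).1, (dl (unpair _).2, tbs)) =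
      true
    rw [unpair_pairBits]
    simp only [dl_bits]
    constructor
    · intro hx
      have htot : ∀ z : List Bool, z.length ≤ Nk.eval x.length → ∃ w : List Bool,
          w.length ≤ p.eval z.length ∧
            (rdV g p (avs a (Nk.eval x.length), (z, w))).isSome = true := by
        intro z hz
        obtain ⟨h', w, hw, hgw⟩ := hT z
        refine ⟨w, hw, ?_⟩
        unfold rdV
        simp only
        rw [decide_eq_true hw, cond_true, avs_getD a hz, hgw]
        rfl
      obtain ⟨tbs, ht1, ht2⟩ := hcm x (avs a (Nk.eval x.length)) htot hx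
      refine ⟨tbs, ht1.trans (eval_mono q ?_), ht2⟩
      have h1 := unpair_fst_length (pairBits x (bits (avs a (Nk.eval x.length))))
      rwa [unpair_pairBits] at h1
    · rintro ⟨tbs, -, htbs⟩ hx
      have h1 := hs x (avs a (Nk.eval x.length)) ?_ hx tbs
      · rw [htbs] at h1
        exact Bool.false_ne_true h1.symm
      intro qs hq1 hq2 hq3
      have hm : 1 ≤ qs.length := (le_max_right _ _).trans hq1
      obtain ⟨u, hu, hadv⟩ := hX qs ((le_max_left _ _).trans hq1) (short_of hc hm hq2)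
      have hkey : pairBits (bits qs) u ∈ kys (fun _ => allU k) qs :=
        List.mem_map.2 ⟨u, mem_allU k u hu, rfl⟩
      have hkN := hq3 _ hkey
      refine ⟨_, hkey, fun w l hl => ?_⟩
      obtain ⟨h', rfl, hw, hgw⟩ := rdV_some hl
      rw [avs_getD a hkN] at hgw
      have hA2 := hadv h' ⟨w, hw, hgw⟩
      refine ⟨h', rfl, hA2.1, ?_⟩
      rw [← excess_eq_cor]
      exact hA2.2

/-- If `A` is in `NP` and its complement is in `NP/poly` then `A` is nondeterministically
predictable with advice and any advantage. -/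
theorem anHelp_of_both {k t : ℕ} {A : Set (List Bool)} (hA : InNP A)
    (hA' : InNPPoly Aᶜ) : ANHelpOn Every k t A := by
  classical
  obtain ⟨V1, p1, hV1, hA1⟩ := hA
  obtain ⟨L, a, r, ⟨V2, p2, hV2, hL⟩, ha, hA2⟩ := hA'
  set C1 : Ck := fun q => ver V1 p1 q.2.1 q.2.2 with hC1
  have hC1p : NPC.Poly C1 := (ver_poly hV1 p1).comp (NPC.Poly.snd NPC.Poly.id)
  have hC2p : NPC.Poly (ckV V2 p2) := ckV_poly hV2 p2
  have hgp : NPC.Poly (fun y : List Bool => gg C1 (ckV V2 p2)
      (dl (unpair (unpair y).1).2, ((unpair (unpair y).1).1, (unpair y).2))) := by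
    have e1 : NPC.Poly (fun y : List Bool => (unpair (unpair y).1).1) :=
      NPC.Poly.fst (poly_unpair.comp (NPC.Poly.fst poly_unpair))
    have e2 : NPC.Poly (fun y : List Bool => dl (unpair (unpair y).1).2) :=
      dl_poly.comp (NPC.Poly.snd (poly_unpair.comp (NPC.Poly.fst poly_unpair)))
    exact (gg_poly hC1p hC2p).comp (NPC.Poly.pair e2 (NPC.Poly.pair e1
      (NPC.Poly.snd poly_unpair)))
  set N0 : Polynomial ℕ := p2.comp (Polynomial.C 2 * Polynomial.X + r + 1) + p1 with hN0
  have eN0 : ∀ n : ℕ, N0.eval n = p2.eval (2 * n + r.eval n + 1) + p1.eval n := fun n => by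
    rw [hN0]; simp
  have hs1 : ∀ q w, ver V1 p1 q w = true → q ∈ A := fun q w h => (hA1 q).2 ⟨w, ver_iff.1 h⟩
  refine ⟨fun y => gg C1 (ckV V2 p2)
      (dl (unpair (unpair y).1).2, ((unpair (unpair y).1).1, (unpair y).2)),
    fun n => bits (avs a n),
    Polynomial.C 4 * Polynomial.X + Polynomial.X * (Polynomial.C 4 * N0 + 2) + 3,
    (Polynomial.X + 1) * (Polynomial.C 4 * r + 2) + 1, t, polyTime_bits hgp, fun n => ?_,
    fun z => ?_, fun qs hqs _ => ⟨List.replicate k false, List.length_replicate, ?_⟩⟩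
  · rw [bits_length]
    have h1 := avs_sz ha n
    simp only [Polynomial.eval_add, Polynomial.eval_mul, Polynomial.eval_C, Polynomial.eval_X,
      Polynomial.eval_one, Polynomial.eval_ofNat]
    exact h1
  · obtain ⟨hz1, hz2⟩ := lst_le z
    obtain ⟨w, hw1, hw2⟩ := gg_complete (V1 := C1) (V2 := ckV V2 p2) (A := A)
      (θ := avs a z.length) z (N0.eval z.length) (fun q hq hqA => by
        obtain ⟨w, hw⟩ := (hA1 q).1 hqA
        have h1 := eval_mono p1 (hz2 q hq)
        refine ⟨w, ?_, ver_iff.2 hw⟩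
        rw [eN0]
        have := hw.1
        omega) (fun q hq hqA => by
        have hql := hz2 q hq
        obtain ⟨w, hw⟩ := (hL _).1 ((hA2 q).1 hqA)
        refine ⟨w, ?_, ?_⟩
        · rw [eN0]
          have h1 := hw.1
          rw [pairBits_len] at h1
          have h2 := ha q.length
          have h3 := eval_mono r hql
          have h4 := eval_mono p2 (show 2 * q.length + (a q.length).length + 1 ≤
            2 * z.length + r.eval z.length + 1 by omega)
          omega
        · unfold ckV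
          simp only
          rw [avs_getD a hql]
          exact ver_iff.2 hw)
    refine ⟨(answers A (lst z)).map some, w, ?_, ?_⟩
    · simp only [Polynomial.eval_add, Polynomial.eval_mul, Polynomial.eval_C, Polynomial.eval_X,
        Polynomial.eval_ofNat]
      have h1 : (lst z).length * (4 * N0.eval z.length + 2) ≤
          z.length * (4 * N0.eval z.length + 2) := Nat.mul_le_mul_right _ hz1
      omega
    · simp only [unpair_pairBits, dl_bits]
      exact hw2
  · rintro h ⟨w, -, hw⟩
    set z : List Bool := pairBits (bits qs) (List.replicate k false) with hz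
    simp only [unpair_pairBits, dl_bits] at hw
    have hlz : lst z = qs := by
      unfold lst
      rw [hz]
      simp only [unpair_pairBits, unbits_bits, Option.getD_some]
    obtain ⟨hz1, hz2⟩ := lst_le z
    have h4 := gg_sound (A := A) (fun q _ w h => hs1 q w h) (fun q hq w hC => ?_) hw
    · rw [hlz] at h4
      rw [h4]
      exact adv_self hqs
    · have hql := hz2 q hq
      unfold ckV at hC
      simp only at hC
      rw [avs_getD a hql] at hC
      exact (hA2 q).2 ((hL _).2 ⟨w, ver_iff.1 hC⟩)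

/-- **The law of help bits for `coNP` and `NP/poly`.** -/
theorem help_law_nppoly : ∃ C : ℕ, ∀ (k t : ℕ) (ε : ℝ),
    (0 < ε → C * 2 ^ k ≤ t ^ 2 ∨ (k + 1) * 2 ^ (k + 1) ≤ t ^ 2 → List.TFAE
      [∀ L : Set (List Bool), InNP L → InNPPoly Lᶜ,
        ∃ A : Set (List Bool), NPHard A ∧ ANHelpOn (Short ε) k t A,
        ∀ A : Set (List Bool), InNP A → ANHelpOn Every k t A]) ∧
    ((t - 1) ^ 2 < 2 ^ k → ∀ A : Set (List Bool), HelpAll k t A) := by
  obtain ⟨C, _, hC⟩ := W935.FH.lda
  refine ⟨C, fun k t ε => ⟨fun hε hkt => ?_, fun h A => free_help h A⟩⟩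
  have hLD := linDisc_of hC hkt
  have hHR : P_HR := W377.FH.hr W320.FH.bu W12.FH.wtt
  tfae_have 1 → 3 := fun h A hA => anHelp_of_both hA (h A hA)
  tfae_have 3 → 2 := fun h => by
    obtain ⟨hA1, hA2⟩ := Pool.Agent.NPC.H545KS.sat_complete
    obtain ⟨g, a, p, r, m₀, hg, ha, hT, hX⟩ := h _ hA1
    exact ⟨_, hA2, g, a, p, r, m₀, hg, ha, hT, fun qs hqs _ => hX qs hqs trivial⟩
  tfae_have 2 → 1 := fun ⟨A, hA, h⟩ L hL =>
    inNPPoly_of_help hHR W12.FH.surj W762.FH.labn hA hLD hε h hL
  tfae_finish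

end Pool.Agent.W901.FH
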