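import Pool.Agent.W901.FC.LawB
import Pool.Agent.W901.FH.PSi
import Pool.Agent.W920.LN.Main

/-!
# Finite help and `PSPACE ⊆ NP`
-/

set_option autoImplicit false

namespace Pool.Agent.W901.FH

section

open Pool.Agent.NPC Pool.Agent.H656R2.AK Pool.Agent.H623R2.PS Pool.Agent.W920.LS
open Pool.Agent.H579R2.Spt (prm prm_spec prm_poly exists_pow_bound)
open Pool.Agent.W901.AT (gen gen_lt gen_cast dig dig_mod gen_upoly)
open Pool.Agent.W920.LN

/-- **Candidate lists with tables give `PSPACE ⊆ NP`.** -/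
theorem inNP_of_ncands {g0 : List Bool → Option (List (Option Bool))} {p0 : Polynomial ℕ}
    (hg0 : NPC.Poly g0) (hT : ∀ z, ∃ h, Outputs g0 p0 z h)
    {G : Tb × Ln → List ℕ} {Ks : Ln → List (List Bool)} {r0 : Polynomial ℕ} (hG : NPC.Poly G)
    (hKs : NPC.Poly Ks) (hr0 : ∀ q, (G q).length ≤ r0.eval (sz q.2))
    (hG2 : ∀ tb a, (∀ z ∈ Ks a, valid g0 p0 tb z = true) → code a ∈ G (tb, a))
    {L : Set (List Bool)} (hL : Pool.Agent.H623R2.PS.InPSPACE L) : InNP L := by
  obtain ⟨pK, hpK⟩ := hKs.sz_le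
  obtain ⟨f, hf, -, hf'⟩ := qbf_hard hL
  have hw : NPC.Poly (fun x => wr (f x)) := wr_poly.comp hf
  obtain ⟨pw, hpw⟩ := hw.sz_le
  set r : Polynomial ℕ := pw.comp (Polynomial.C 4 * Polynomial.X + 1) with hr
  have hrx : ∀ x : List Bool, sz (wr (f x)) ≤ r.eval x.length := by
    intro x
    refine (hpw x).trans ?_
    rw [hr, Polynomial.eval_comp]
    refine eval_mono pw ?_
    simpa using sz_listBool_le x
  set p3 : Polynomial ℕ := Polynomial.C 100 * Polynomial.X ^ 3 + 100 with hp3
  obtain ⟨e1, he1⟩ := exists_pow_bound ((r0.comp p3) ^ 2 * Polynomial.X)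
  set g : ℕ := e1 + 1 with hg
  set b : List Bool → ℕ := fun x => r.eval x.length + (g + 3) with hb
  have hbU : UPoly b := ((UPoly.length NPC.Poly.id).eval r).add (UPoly.const (g + 3))
  have hpowU : ∀ {u : List Bool → ℕ}, UPoly u → ∀ m : ℕ, UPoly (fun x => (u x) ^ m) := by
    intro u hu m
    induction m with
    | zero => simpa using UPoly.const 1
    | succ m ih => simpa only [pow_succ] using ih.mul hu
  have hpU : UPoly (fun x => prm ((b x) ^ g)) := prm_poly (hpowU hbU g)
  have hb0 : ∀ x, (b x) ^ g ≠ 0 := fun x => by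
    have h2 : 0 < b x := by simp only [hb]; omega
    positivity
  have hpu : NPC.Poly (fun x => List.replicate (prm ((b x) ^ g) - 1) ()) :=
    UPoly.of_le (NPC.Poly.sub hpU.toPoly (NPC.Poly.const 1)) hpU fun x => Nat.sub_le _ _
  have hvd : NPC.Poly (fun q : Tb × List Bool => valid g0 p0 q.1 q.2) :=
    isSome_poly (go_poly hg0 p0 (NPC.Poly.fst NPC.Poly.id) (NPC.Poly.snd NPC.Poly.id))
  have hin : NPC.Poly (fun q : List Bool × List Tb =>
      (((List.replicate (prm ((b q.1) ^ g) - 1) (), wr (f q.1)), q.2) : Wn)) := by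
    have e1 : NPC.Poly (fun q : List Bool × List Tb => q.1) := NPC.Poly.fst NPC.Poly.id
    have h1 := hpu.comp e1
    have h2 := hw.comp e1
    exact NPC.Poly.pair (NPC.Poly.pair h1 h2) (NPC.Poly.snd NPC.Poly.id)
  have hV : NPC.Poly (fun q : List Bool × List Tb => verif G Ks (valid g0 p0)
      ((List.replicate (prm ((b q.1) ^ g) - 1) (), wr (f q.1)), q.2)) := by
    have h := (verif_poly hG hKs hvd).comp hin
    exact h
  refine inNP_of hV ((r + Polynomial.C (g + 3)) *
    ((RT pK p0).comp (p3.comp (r + Polynomial.C (g + 3))) + 1) + 1) fun x => ?_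
  obtain ⟨hp, hpb1, hpb2⟩ := prm_spec (hb0 x)
  set p : ℕ := prm ((b x) ^ g) with hpdef
  have hpl : (List.replicate (p - 1) ()).length + 1 = p := by
    rw [List.length_replicate]
    have := hp.pos
    omega
  have hbx := hrx x
  set n : ℕ := (f x).1.length with hn
  set C := (f x).2 with hC
  set ks : List Unit := (C.flatMap fun c => c.map fun _ => ()) ++ List.replicate 3 () with hks
  set ops : List Op := opsQ n 0 (f x).1 with hops
  have hwr : wr (f x) = (C, ks, ops, List.replicate n 0) := rfl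
  have hbe : b x = r.eval x.length + (g + 3) := rfl
  rw [hwr, sz_pair, sz_pair, sz_pair] at hbx
  have hgb : g + 1 ≤ b x := by omega
  have hb2 : 2 ≤ b x := by omega
  have hnb : n ≤ b x := by
    have h1 := length_lt_sz (List.replicate n (0 : ℕ))
    rw [List.length_replicate] at h1
    omega
  have hpsz : p < 2 ^ (b x * b x) := by
    have h1 : b x < 2 ^ b x := Nat.lt_two_pow_self
    have h2 : (b x) ^ g < (2 ^ b x) ^ g := Nat.pow_lt_pow_left h1 (by omega)
    have h3 : 2 * (2 ^ b x) ^ g ≤ 2 ^ (b x * b x) := by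
      calc 2 * (2 ^ b x) ^ g = 2 ^ (b x * g + 1) := by rw [← pow_mul, pow_succ]; ring
        _ ≤ 2 ^ (b x * b x) := Nat.pow_le_pow_right (by norm_num) (by
            have h4 : b x * (g + 1) ≤ b x * b x := Nat.mul_le_mul_left _ hgb
            have h5 : b x * (g + 1) = b x * g + b x := by ring
            omega)
    omega
  have hsp : ∀ y ≤ p, sz y ≤ 4 * (b x * b x) + 1 := by
    intro y hy
    have h1 := sz_nat_le y
    have h2 : y.size ≤ b x * b x := Nat.size_le.2 (lt_of_le_of_lt hy hpsz)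
    omega
  have hzb : ∀ (ops' : List Op) (a : List ℕ) (j : ℕ), ops' <:+ ops → a.length = n →
      (∀ y ∈ a, y < p) → j < n → sz (((p, C, ops', a), (j, ks)) : Ln) ≤ p3.eval (b x) := by
    intro ops' a j hs ha hap hj
    have s1 := hsp p le_rfl
    have s2 := sz_suffix hs
    have s3 := sz_le_length_mul a (4 * (b x * b x) + 1) (fun y hy => hsp y (hap y hy).le)
    rw [ha] at s3
    have s4 : n * (4 * (b x * b x) + 1 + 1) ≤ b x * (4 * (b x * b x) + 2) :=
      Nat.mul_le_mul_right _ hnb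
    have s5 : sz j ≤ 4 * b x + 1 := (sz_nat_le j).trans (by
      have := NPC.Poly.size_le_self j; omega)
    rw [sz_pair, sz_pair, sz_pair, sz_pair, sz_pair, hp3]
    simp only [Polynomial.eval_add, Polynomial.eval_mul, Polynomial.eval_C, Polynomial.eval_X,
      Polynomial.eval_pow, Polynomial.eval_ofNat]
    have h1 : 2 * b x ≤ b x * b x := Nat.mul_le_mul_right _ hb2
    have h1' : 2 * (b x * b x) ≤ b x * b x * b x := by
      have := Nat.mul_le_mul_left (b x * b x) hb2
      omega
    have h2 : b x ^ 3 = b x * b x * b x := by ring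
    have h3 : b x * (4 * (b x * b x) + 2) = 4 * (b x * b x * b x) + 2 * b x := by ring
    rw [h2]
    omega
  have hcard : ∀ (tb : Tb) (ops' : List Op) (a : List ℕ) (j : ℕ), ops' <:+ ops → a.length = n →
      (∀ y ∈ a, y < p) → j < n →
      (G (tb, ((p, C, ops', a), (j, ks)))).length ^ 2 * ks.length < p := by
    intro tb ops' a j hs ha hap hj
    have hz := hzb ops' a j hs ha hap hj
    have h3 := length_lt_sz ks
    have h4 : (G (tb, ((p, C, ops', a), (j, ks)))).length ≤ r0.eval (p3.eval (b x)) :=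
      (hr0 (tb, ((p, C, ops', a), (j, ks)))).trans (eval_mono r0 hz)
    have h5 := he1 (b x) hb2
    rw [Polynomial.eval_mul, Polynomial.eval_pow, Polynomial.eval_comp, Polynomial.eval_X] at h5
    calc (G (tb, ((p, C, ops', a), (j, ks)))).length ^ 2 * ks.length
        ≤ (r0.eval (p3.eval (b x))) ^ 2 * b x :=
          Nat.mul_le_mul (Nat.pow_le_pow_left h4 2) (by omega)
      _ ≤ (b x) ^ e1 := h5
      _ ≤ (b x) ^ g := Nat.pow_le_pow_right (by omega) (by omega)
      _ < p := hpb1
  have hK : max 2 (nlit C) < ks.length := by rw [hks, ks_length]; omega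
  have hsm : Sm (nlit C) n ops := sm_opsQ _ _ _ _ (by omega)
  have ha0 : ∀ y ∈ List.replicate n 0, y < p := fun y hy => by
    rw [List.eq_of_mem_replicate hy]; exact hp.pos
  have hval : ∀ tbs : List Tb, verif G Ks (valid g0 p0) ((List.replicate (p - 1) (), wr (f x)), tbs) =
      (((gstep G Ks (valid g0 p0) p C ks)^[ops.length]
        (ops, (List.replicate n 0, ([], (tbs, true))))).2.2.2.2 &&
      decide ((((gstep G Ks (valid g0 p0) p C ks)^[ops.length]
        (ops, (List.replicate n 0, ([], (tbs, true))))).2.2.1).foldl (bstep p ks.length)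
        (mvN p C ((gstep G Ks (valid g0 p0) p C ks)^[ops.length]
        (ops, (List.replicate n 0, ([], (tbs, true))))).2.1) = 1)) := by
    intro tbs
    have h1 : gstepW G Ks (valid g0 p0) ((List.replicate (p - 1) (), wr (f x)), tbs) =
        gstep G Ks (valid g0 p0) p C ks := by
      funext s
      change gstep G Ks (valid g0 p0) ((List.replicate (p - 1) ()).length + 1) C ks s = _
      rw [hpl]
    unfold verif Pool.Agent.W920.LN.gfin
    rw [h1, hwr]
    simp only [ginit, hpl]
  have hsnd := fun tbs => run_sound (G := G) (Ks := Ks) (vd := valid g0 p0) hG2 hp C ks hK n ops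
    hcard ops (List.replicate n 0) [] tbs true List.suffix_rfl hsm (List.length_replicate ..) ha0
  rw [hf' x, ← evN_iff hp, ← hC, ← hn, ← hops]
  constructor
  · intro hev
    obtain ⟨tbs, h1, h2, h3⟩ := run_complete (G := G) (Ks := Ks) (vd := valid g0 p0) hp C ks n ops
      hcard ((RT pK p0).eval (p3.eval (b x)))
      (fun ops' a j hs ha hap hj => exists_table hT hpK _ (hzb ops' a j hs ha hap hj))
      ops (List.replicate n 0) [] true List.suffix_rfl hsm (List.length_replicate ..) ha0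
    refine ⟨tbs, ?_, ?_⟩
    · refine (sz_le_length_mul tbs _ h2).trans ?_
      rw [h1]
      simp only [Polynomial.eval_add, Polynomial.eval_mul, Polynomial.eval_C,
        Polynomial.eval_one, Polynomial.eval_comp]
      have h4 := length_lt_sz ops
      have h5 : ops.length * ((RT pK p0).eval (p3.eval (b x)) + 1) ≤
          b x * ((RT pK p0).eval (p3.eval (b x)) + 1) := Nat.mul_le_mul_right _ (by omega)
      exact Nat.add_le_add_right h5 1
    · have h4 := hval tbs
      simp only at h4 ⊢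
      rw [h4, h3, Bool.true_and, decide_eq_true_eq]
      rw [(hsnd tbs h3).2]
      exact hev
  · rintro ⟨tbs, -, hv⟩
    have h4 := hval tbs
    simp only at h4 hv
    rw [h4, Bool.and_eq_true, decide_eq_true_eq] at hv
    obtain ⟨hv1, hv2⟩ := hv
    rw [(hsnd tbs hv1).2] at hv2
    exact hv2


end

section

open Pool.Agent.NPC Pool.Agent.H579R2.Spt Pool.Agent.H251R5.PQ Pool.Agent.W901.AT
open Pool.Agent.W903.GP (Sp)
open Pool.Agent.W920.LN (Outputs Tb go go_poly valid)
open Pool.Agent.W920.LS (Hard Ln code code_sp hard_of_ps)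
open Pool.Agent.W21.FH (allU allU_length mem_allU)

theorem outputs_of_go {g : List Bool → Option (List (Option Bool))} {p : Polynomial ℕ} {tb : Tb}
    {z : List Bool} {h : List (Option Bool)} (hh : go g p tb z = some h) : Outputs g p z h := by
  unfold go at hh
  by_cases hl : (Pool.Agent.W920.LN.lk tb z).length ≤ p.eval z.length
  · rw [decide_eq_true hl, cond_true] at hh
    exact ⟨_, hl, hh⟩
  · rw [decide_eq_false hl, cond_false] at hh
    exact absurd hh (by simp)

/-- What the search needs. -/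
def NHC (A : Set (List Bool)) (t c m₀ k : ℕ) (g0 : List Bool → Option (List (Option Bool)))
    (p0 : Polynomial ℕ) : Prop :=
  Poly g0 ∧ (∀ z, ∃ h, Outputs g0 p0 z h) ∧
    ∀ qs : List (List Bool), m₀ ≤ qs.length → (∀ q ∈ qs, q.length ^ c ≤ qs.length) →
      ∃ u ∈ allU k, ∀ h, Outputs g0 p0 (pairBits (bits qs) u) h →
        h.length = qs.length ∧ (t : ℤ) ≤ |cor h (answers A qs)|

/-- **Candidate lists, with tables.** -/
theorem n_approxH (hHR : P_HR) (hSJ : P_SURJ) (hLB : P_LBP) {A : Set (List Bool)} (hA : Hard A)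
    {k t c m₀ : ℕ} (hLD : LinDisc ((2 ^ k : ℕ)) t) {g0 : List Bool → Option (List (Option Bool))}
    {p0 : Polynomial ℕ} (hN : NHC A t c m₀ k g0 p0)
    {f0 : List Bool → List Bool} (hf0 : Sp f0) (pp : Polynomial ℕ)
    (hlen : ∀ x, (f0 x).length ≤ pp.eval x.length) :
    ∃ (G : Tb × List Bool → List (List Bool)) (Ks : List Bool → List (List Bool))
      (r : Polynomial ℕ), NPC.Poly G ∧ NPC.Poly Ks ∧
      (∀ q, (G q).length ≤ r.eval q.2.length) ∧
      ∀ tb x, (∀ z ∈ Ks x, valid g0 p0 tb z = true) → f0 x ∈ G (tb, x) := by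
  obtain ⟨hg0, -, hX⟩ := hN
  obtain ⟨f, hf, hfA⟩ := hA (lang (LabF f0 (2 ^ k))) (labF_sp hLB hf0 (2 ^ k))
  have hqfp : Poly (fun q : List Bool × (ℕ × (ℕ × (ℕ × (ℕ × ℕ)))) => f (bits q)) :=
    (PIso.poly_iff.2 hf).comp bits_poly
  have hE : Poly (fun z : Tb × List (List Bool) =>
      Pool.Agent.W920.LN.ET g0 p0 (fun _ => allU k) z.1 z.2) :=
    Pool.Agent.W920.LN.eT_poly hg0 p0 (NPC.Poly.const _) (NPC.Poly.fst NPC.Poly.id)
      (NPC.Poly.snd NPC.Poly.id)
  obtain ⟨G, S, r, hG, hS, hr, hS2, hG2⟩ := engineC (A := A) (c := c) (m₀ := m₀) hHR hSJ hLD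
    hE (fun tb qs => by
      unfold Pool.Agent.W920.LN.ET
      rw [List.length_map, allU_length]) hqfp pp
  refine ⟨fun q => G q.1 q.2, fun x => (S x).flatMap (Pool.Agent.W920.NL.kys fun _ => allU k), r,
    hG, ?_, fun q => hr q.1 q.2, fun tb x hval => ?_⟩
  · exact NPC.Poly.flatMap (l := S)
      (F := fun _ qs => Pool.Agent.W920.NL.kys (fun _ => allU k) qs) hS
      ((Pool.Agent.W920.NL.kys_poly (NPC.Poly.const _)).comp (NPC.Poly.snd NPC.Poly.id))
  · refine hG2 tb x (f0 x) (fun qs hqs => ?_) (hlen x) ?_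
    · obtain ⟨u, hu, hgu⟩ := hX qs (hS2 x qs hqs).1 (hS2 x qs hqs).2
      have hin : pairBits (bits qs) u ∈
          (S x).flatMap (Pool.Agent.W920.NL.kys fun _ => allU k) :=
        List.mem_flatMap.2 ⟨qs, hqs, List.mem_map.2 ⟨u, hu, rfl⟩⟩
      obtain ⟨h, hh⟩ := Option.isSome_iff_exists.1 (hval _ hin)
      refine ⟨h, List.mem_map.2 ⟨u, hu, ?_⟩, hgu h (outputs_of_go hh)⟩
      simp only [hh, Option.getD_some]
    · intro m P j s i
      rw [← hfA, bits_mem_lang]
      exact Iff.rfl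

/-- **Candidate lists for functions on data, with tables.** -/
theorem n_candsH (hHR : P_HR) (hSJ : P_SURJ) (hLB : P_LBP) {A : Set (List Bool)} (hA : Hard A)
    {k t c m₀ : ℕ} (hLD : LinDisc ((2 ^ k : ℕ)) t) {g0 : List Bool → Option (List (Option Bool))}
    {p0 : Polynomial ℕ} (hN : NHC A t c m₀ k g0 p0)
    {α β : Type} [TEnc α] [TDec α] [TEnc β] [TDec β] (a0 : α) (b0 : β) {F : α → β} (hF : Sp F) :
    ∃ (G : Tb × α → List β) (Ks : α → List (List Bool)) (r : Polynomial ℕ), NPC.Poly G ∧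
      NPC.Poly Ks ∧ (∀ q, (G q).length ≤ r.eval (sz q.2)) ∧
      ∀ tb a, (∀ z ∈ Ks a, valid g0 p0 tb z = true) → F a ∈ G (tb, a) := by
  have h1 : NPC.Poly (fun z : List Bool => (unbits α z).getD a0) :=
    NPC.Poly.optGetD poly_unbits (NPC.Poly.const a0)
  have h2 : Sp (fun z : List Bool => bits (F ((unbits α z).getD a0))) :=
    (hF.comp (Sp.of_poly h1)).post bits_poly
  obtain ⟨p, hp⟩ := h2.sz_le
  obtain ⟨G, Ks, r, hG, hKs, hr, hG2⟩ := n_approxH hHR hSJ hLB hA hLD hN h2
    (p.comp (Polynomial.C 4 * Polynomial.X + 1)) (fun x => by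
      have e1 := hp x
      have e2 := sz_listBool_ge (bits (F ((unbits α x).getD a0)))
      have e3 := eval_mono p (sz_listBool_le x)
      rw [Polynomial.eval_comp]
      simp only [Polynomial.eval_add, Polynomial.eval_mul, Polynomial.eval_C, Polynomial.eval_X,
        Polynomial.eval_one]
      omega)
  refine ⟨fun q => (G (q.1, bits q.2)).map fun y => (unbits β y).getD b0,
    fun a => Ks (bits a), r, ?_, hKs.comp bits_poly, ?_, fun tb a h => ?_⟩
  · refine NPC.Poly.map (l := fun q : Tb × α => G (q.1, bits q.2))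
      (F := fun _ y => (unbits β y).getD b0) ?_ ?_
    · have h3 : NPC.Poly (fun q : Tb × α => ((q.1, bits q.2) : Tb × List Bool)) :=
        NPC.Poly.pair (NPC.Poly.fst NPC.Poly.id) (bits_poly.comp (NPC.Poly.snd NPC.Poly.id))
      have h4 := hG.comp h3
      exact h4
    · exact NPC.Poly.optGetD (poly_unbits.comp (NPC.Poly.snd NPC.Poly.id)) (NPC.Poly.const b0)
  · intro q
    rw [List.length_map]
    exact hr (q.1, bits q.2)
  · refine List.mem_map.2 ⟨_, hG2 tb (bits a) h, ?_⟩
    simp only [unbits_bits, Option.getD_some]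

/-- A nondeterministic predictor with help bits of a `PSPACE`-hard set gives `PSPACE ⊆ NP`. -/
theorem inNP_of_help (hHR : P_HR) (hSJ : P_SURJ) (hLB : P_LBP) {A : Set (List Bool)}
    (hA : Pool.Agent.H623R2.PS.PSPACEHard A) {k t : ℕ} (hLD : LinDisc ((2 ^ k : ℕ)) t) {ε : ℝ}
    (hε : 0 < ε) (h : NHelpOn (Short ε) k t A) {L : Set (List Bool)}
    (hL : Pool.Agent.H623R2.PS.InPSPACE L) : InNP L := by
  obtain ⟨g, p, m₀, hg, hT, hX⟩ := h
  obtain ⟨c, hc⟩ := exists_c hε
  have hN : NHC A t c (max m₀ 1) k g p := by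
    refine ⟨poly_of_bits' hg, hT, fun qs hq1 hq2 => ?_⟩
    obtain ⟨u, hu, hadv⟩ := hX qs ((le_max_left _ _).trans hq1)
      (short_of hc ((le_max_right _ _).trans hq1) hq2)
    refine ⟨u, mem_allU k u hu, fun h hh => ⟨(hadv h hh).1, ?_⟩⟩
    rw [← excess_eq_cor]
    exact (hadv h hh).2
  obtain ⟨G, Ks, r0, hG, hKs, hr0, hG2⟩ := n_candsH hHR hSJ hLB (hard_of_ps hA) hLD hN
    (((0, [], [], []), (0, [])) : Ln) (0 : ℕ) code_sp
  exact inNP_of_ncands (poly_of_bits' hg) hT hG hKs hr0 hG2 hL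

end

end Pool.Agent.W901.FH
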