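import Pool.Agent.W901.FC.LawC

/-!
# Finite help and `PSPACE ⊆ NP`: the law
-/

set_option autoImplicit false

namespace Pool.Agent.W901.FH

open Pool.Agent.NPC Pool.Agent.H623R2.PS Pool.Agent.W920.LS
open Pool.Agent.H656R2.AK (arcKayles_hard arcKayles_mem)
open Pool.Agent.W903 Pool.Agent.W901.AT Pool.Agent.H579R2.Spt Pool.Agent.H251R5.PQ
open Pool.Agent.W903.GP (Sp)
open Pool.Agent.W920.LN (sp_map piso_of_ps pairBits_length' Outputs)

open Classical in
/-- If `PSPACE ⊆ NP` then all sets in `PSPACE` are nondeterministically predictable, with any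
advantage. -/
theorem nhelp_of_inNP {k t : ℕ} (hP : ∀ L : Set (List Bool),
    Pool.Agent.H623R2.PS.InPSPACE L → InNP L) {A : Set (List Bool)}
    (hA : Pool.Agent.H623R2.PS.InPSPACE A) : NHelpOn Every k t A := by
  obtain ⟨F, hF, hFA⟩ := GP.sp_of_inPSPACE (piso_of_ps hA)
  set vec : List Bool → List Bool := fun z =>
    ((unbits (List (List Bool)) (unpair z).1).getD []).map F with hvec
  have hvecS : Sp vec := sp_map hF listOf_poly []
  obtain ⟨q, hq⟩ := hvecS.sz_le
  have hql : ∀ z, (vec z).length ≤ (q.comp (Polynomial.C 4 * Polynomial.X + 1)).eval z.length := by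
    intro z
    have e1 := hq z
    have e2 := sz_listBool_ge (vec z)
    have e3 := eval_mono q (sz_listBool_le z)
    rw [Polynomial.eval_comp]
    simp only [Polynomial.eval_add, Polynomial.eval_mul, Polynomial.eval_C, Polynomial.eval_X,
      Polynomial.eval_one]
    omega
  set q' : Polynomial ℕ := q.comp (Polynomial.C 4 * Polynomial.X + 1) with hq'
  obtain ⟨V, p, hV, hVL⟩ := hP _ (ps_of_piso (GP.inPSPACE_graph hvecS))
  have hVp : Poly V := PIso.poly_iff.2 hV
  set g : List Bool → Option (List (Option Bool)) := fun y =>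
    bif decide (V (pairBits (pairBits (unpair y).1 (unpair (unpair y).2).1)
      (unpair (unpair y).2).2) = [true]) &&
      decide ((unpair (unpair y).2).2.length ≤
        p.eval (pairBits (unpair y).1 (unpair (unpair y).2).1).length) then
      some ((unpair (unpair y).2).1.map some) else none with hg
  have hgp : Poly g := by
    have e1 : Poly (fun y : List Bool => (unpair y).1) := NPC.Poly.fst poly_unpair
    have e2 : Poly (fun y : List Bool => (unpair y).2) := NPC.Poly.snd poly_unpair
    have e3 : Poly (fun y : List Bool => (unpair (unpair y).2).1) :=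
      NPC.Poly.fst (poly_unpair.comp e2)
    have e4 : Poly (fun y : List Bool => (unpair (unpair y).2).2) :=
      NPC.Poly.snd (poly_unpair.comp e2)
    have e5 := H622R2.poly_pairBits e1 e3
    refine NPC.Poly.cond (NPC.Poly.and (NPC.Poly.decide_eq
      (hVp.comp (H622R2.poly_pairBits e5 e4)) (NPC.Poly.const [true]))
      (NPC.Poly.decide_le (NPC.Poly.length e4) ((UPoly.length e5).eval p).toPoly)) ?_
      (NPC.Poly.const none)
    exact NPC.Poly.some (NPC.Poly.map (F := fun _ b => some b) e3
      (NPC.Poly.some (NPC.Poly.snd NPC.Poly.id)))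
  have hgpair : ∀ z v w, g (pairBits z (pairBits v w)) =
      bif decide (V (pairBits (pairBits z v) w) = [true]) &&
        decide (w.length ≤ p.eval (pairBits z v).length) then some (v.map some) else none := by
    intro z v w
    rw [hg]
    simp only [unpair_pairBits]
  refine ⟨g, 2 * q' + 1 + p.comp (2 * Polynomial.X + 1 + q'), t, polyTime_bits hgp,
    ?_, fun qs hqs _ => ⟨List.replicate k false, List.length_replicate, ?_⟩⟩
  · intro z
    obtain ⟨w, hw1, hw2⟩ := (hVL (pairBits z (vec z))).1 ⟨z, rfl⟩
    refine ⟨(vec z).map some, pairBits (vec z) w, ?_, ?_⟩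
    · rw [pairBits_length']
      rw [pairBits_length'] at hw1
      have h1 := hql z
      have h2 := eval_mono p (show 2 * z.length + 1 + (vec z).length ≤
        2 * z.length + 1 + q'.eval z.length by omega)
      simp only [Polynomial.eval_add, Polynomial.eval_mul, Polynomial.eval_comp,
        Polynomial.eval_X, Polynomial.eval_one, Polynomial.eval_ofNat]
      omega
    · rw [hgpair, hw2, decide_eq_true rfl, decide_eq_true hw1]
      rfl
  · rintro h ⟨w', _, hw'⟩
    set z := pairBits (bits qs) (List.replicate k false) with hz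
    have hvz : vec z = answers A qs := by
      simp only [hvec, hz, unpair_pairBits, unbits_bits, Option.getD_some]
      unfold answers
      refine List.map_congr_left fun y _ => ?_
      by_cases hy : y ∈ A
      · rw [(hFA y).1 hy]; exact (decide_eq_true hy).symm
      · have h1 : ¬ F y = true := fun h => hy ((hFA y).2 h)
        rw [Bool.not_eq_true] at h1
        rw [h1]; exact (decide_eq_false hy).symm
    have hh : h = (answers A qs).map some := by
      have h1 : g (pairBits z w') = bif decide (V (pairBits (pairBits z (unpair w').1)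
          (unpair w').2) = [true]) && decide ((unpair w').2.length ≤
            p.eval (pairBits z (unpair w').1).length) then
          some ((unpair w').1.map some) else none := by
        rw [hg]
        simp only [unpair_pairBits]
      rw [h1] at hw'
      cases hb : (decide (V (pairBits (pairBits z (unpair w').1)
          (unpair w').2) = [true]) && decide ((unpair w').2.length ≤
            p.eval (pairBits z (unpair w').1).length)) with
      | false => rw [hb, cond_false] at hw'; exact absurd hw' (by simp)
      | true =>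
        rw [hb, cond_true] at hw'
        rw [Bool.and_eq_true, decide_eq_true_eq, decide_eq_true_eq] at hb
        have h2 : pairBits z (unpair w').1 ∈ GP.graph vec :=
          (hVL _).2 ⟨(unpair w').2, hb.2, hb.1⟩
        rw [GP.mem_graph, hvz] at h2
        rw [← h2]
        exact (Option.some.inj hw').symm
    rw [hh]
    exact adv_self hqs

/-- **The law of help bits for `NP` and `PSPACE`.** -/
theorem help_law_nspace : ∃ C : ℕ, ∀ (k t : ℕ) (ε : ℝ),
    (0 < ε → C * 2 ^ k ≤ t ^ 2 ∨ (k + 1) * 2 ^ (k + 1) ≤ t ^ 2 → List.TFAE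
      [∀ L : Set (List Bool), Pool.Agent.H623R2.PS.InPSPACE L → InNP L,
        ∃ A : Set (List Bool), PSPACEHard A ∧ NHelpOn (Short ε) k t A,
        ∀ A : Set (List Bool), Pool.Agent.H623R2.PS.InPSPACE A → NHelpOn Every k t A]) ∧
    ((t - 1) ^ 2 < 2 ^ k → ∀ A : Set (List Bool), HelpAll k t A) := by
  obtain ⟨C, _, hC⟩ := W935.FH.lda
  refine ⟨C, fun k t ε => ⟨fun hε hkt => ?_, fun h A => free_help h A⟩⟩
  have hLD := linDisc_of hC hkt
  have hHR : P_HR := W377.FH.hr W320.FH.bu W12.FH.wtt
  tfae_have 1 → 3 := fun h A hA => nhelp_of_inNP h hA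
  tfae_have 3 → 2 := fun h => by
    obtain ⟨g, p, m₀, hg, hT, hX⟩ := h _ arcKayles_mem
    exact ⟨_, arcKayles_hard, g, p, m₀, hg, hT, fun qs hqs _ => hX qs hqs trivial⟩
  tfae_have 2 → 1 := fun ⟨A, hA, h⟩ L hL =>
    inNP_of_help hHR W12.FH.surj W762.FH.lbp hA hLD hε h hL
  tfae_finish

end Pool.Agent.W901.FH
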