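import Pool.Agent.W901.FC.LawB
import Pool.Agent.W920.NL.Law1

/-!
# Finite help and `NP = coNP`
-/

set_option autoImplicit false

namespace Pool.Agent.W901.FH

open Pool.Agent.NPC Pool.Agent.H251R5.PQ Pool.Agent.W901.AT Pool.Agent.H579R2.Spt
open Pool.Agent.W920.LN (Tb lk Outputs inNP_of)
open Pool.Agent.W920.NL (rd1 rd1_poly rd1_some kys Ck gg gg_poly gg_sound gg_complete lst lst_le)
open Pool.Agent.W21.FH (allU mem_allU)

/-- A nondeterministic predictor with help bits of an `NP`-hard set puts the complements of `NP` sets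
in `NP`. -/
theorem compl_of_help (hHR : P_HR) (hSJ : P_SURJ) (hLN : P_LABN) {A : Set (List Bool)}
    (hA : NPHard A) {k t : ℕ} (hLD : LinDisc ((2 ^ k : ℕ)) t) {ε : ℝ} (hε : 0 < ε)
    (h : NHelpOn (Short ε) k t A) {L : Set (List Bool)} (hL : InNP L) : InNP Lᶜ := by
  obtain ⟨g, p, m₀, hg, hT, hX⟩ := h
  obtain ⟨c, hc⟩ := exists_c hε
  obtain ⟨V, Nk, q, hV, hs, hcm⟩ := coreH (c := c) (m₀ := max m₀ 1) hHR hSJ hLN A hA hLD
    (rd1_poly (poly_of_bits' hg) p) L hL p
  have hsnd : ∀ K : List Bool → Prop, SndH A t c (max m₀ 1) k (rd1 g p) [] K := by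
    intro K qs hq1 hq2 _
    obtain ⟨u, hu, hadv⟩ := hX qs ((le_max_left _ _).trans hq1)
      (short_of hc ((le_max_right _ _).trans hq1) hq2)
    refine ⟨_, List.mem_map.2 ⟨u, mem_allU k u hu, rfl⟩, fun w l hl => ?_⟩
    obtain ⟨h', rfl, hw, hgw⟩ := rd1_some hl
    have hA2 := hadv h' ⟨w, hw, hgw⟩
    refine ⟨h', rfl, hA2.1, ?_⟩
    rw [← excess_eq_cor]
    exact hA2.2
  refine inNP_of (β := List Tb) (R := fun y => V (y.1, ([], y.2)))
    (hV.comp (NPC.Poly.pair (NPC.Poly.fst NPC.Poly.id) (NPC.Poly.pair (NPC.Poly.const [])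
      (NPC.Poly.snd NPC.Poly.id)))) q fun x => ?_
  constructor
  · intro hx
    refine hcm x [] (fun z _ => ?_) hx
    obtain ⟨h', w, hw, hgw⟩ := hT z
    refine ⟨w, hw, ?_⟩
    unfold rd1
    simp only
    rw [decide_eq_true hw, cond_true, hgw]
    rfl
  · rintro ⟨tbs, -, htbs⟩ hx
    have h1 := hs x [] (hsnd _) hx tbs
    simp only at htbs
    rw [htbs] at h1
    exact Bool.false_ne_true h1.symm

/-- If `A` and its complement are in `NP` then `A` is nondeterministically predictable, with any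
advantage. -/
theorem nhelp_of_both {k t : ℕ} {A : Set (List Bool)} (hA : InNP A)
    (hA' : InNP Aᶜ) : NHelpOn Every k t A := by
  obtain ⟨V1, p1, hV1, hA1⟩ := hA
  obtain ⟨V2, p2, hV2, hA2⟩ := hA'
  set C1 : Ck := fun q => ver V1 p1 q.2.1 q.2.2 with hC1
  set C2 : Ck := fun q => ver V2 p2 q.2.1 q.2.2 with hC2
  have hC1p : NPC.Poly C1 := (ver_poly hV1 p1).comp (NPC.Poly.snd NPC.Poly.id)
  have hC2p : NPC.Poly C2 := (ver_poly hV2 p2).comp (NPC.Poly.snd NPC.Poly.id)
  have hs1 : ∀ q w, C1 ([], (q, w)) = true → q ∈ A := fun q w h =>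
    (hA1 q).2 ⟨w, ver_iff.1 h⟩
  have hs2 : ∀ q w, C2 ([], (q, w)) = true → q ∉ A := fun q w h =>
    (hA2 q).2 ⟨w, ver_iff.1 h⟩
  have hgp : NPC.Poly (fun y : List Bool => gg C1 C2 ([], unpair y)) :=
    (gg_poly hC1p hC2p).comp (NPC.Poly.pair (NPC.Poly.const []) poly_unpair)
  refine ⟨fun y => gg C1 C2 ([], unpair y),
    Polynomial.C 4 * Polynomial.X + Polynomial.X * (Polynomial.C 4 * (p1 + p2) + 2) + 3,
    t, polyTime_bits hgp, fun z => ?_,
    fun qs hqs _ => ⟨List.replicate k false, List.length_replicate, ?_⟩⟩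
  · obtain ⟨hz1, hz2⟩ := lst_le z
    obtain ⟨w, hw1, hw2⟩ := gg_complete (V1 := C1) (V2 := C2) (A := A) (θ := []) z
      (p1.eval z.length + p2.eval z.length) (fun q hq hqA => by
        obtain ⟨w, hw⟩ := (hA1 q).1 hqA
        have h1 := eval_mono p1 (hz2 q hq)
        exact ⟨w, by have := hw.1; omega, ver_iff.2 hw⟩) (fun q hq hqA => by
        obtain ⟨w, hw⟩ := (hA2 q).1 hqA
        have h1 := eval_mono p2 (hz2 q hq)
        exact ⟨w, by have := hw.1; omega, ver_iff.2 hw⟩)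
    refine ⟨(answers A (lst z)).map some, w, ?_, ?_⟩
    · simp only [Polynomial.eval_add, Polynomial.eval_mul, Polynomial.eval_C, Polynomial.eval_X,
        Polynomial.eval_ofNat]
      have h1 : (lst z).length * (4 * (p1.eval z.length + p2.eval z.length) + 2) ≤
          z.length * (4 * (p1.eval z.length + p2.eval z.length) + 2) :=
        Nat.mul_le_mul_right _ hz1
      omega
    · simp only [unpair_pairBits]
      exact hw2
  · rintro h ⟨w, -, hw⟩
    simp only [unpair_pairBits] at hw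
    have hlz : lst (pairBits (bits qs) (List.replicate k false)) = qs := by
      unfold lst
      simp only [unpair_pairBits, unbits_bits, Option.getD_some]
    have h4 := gg_sound (A := A) (fun q _ w h => hs1 q w h) (fun q _ w h => hs2 q w h) hw
    rw [hlz] at h4
    rw [h4]
    exact adv_self hqs

/-- **The law of help bits for `NP` and `coNP`.** -/
theorem help_law_conp : ∃ C : ℕ, ∀ (k t : ℕ) (ε : ℝ),
    (0 < ε → C * 2 ^ k ≤ t ^ 2 ∨ (k + 1) * 2 ^ (k + 1) ≤ t ^ 2 → List.TFAE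
      [∀ L : Set (List Bool), InNP L → InNP Lᶜ,
        ∃ A : Set (List Bool), NPHard A ∧ NHelpOn (Short ε) k t A,
        ∀ A : Set (List Bool), InNP A → NHelpOn Every k t A]) ∧
    ((t - 1) ^ 2 < 2 ^ k → ∀ A : Set (List Bool), HelpAll k t A) := by
  obtain ⟨C, _, hC⟩ := W935.FH.lda
  refine ⟨C, fun k t ε => ⟨fun hε hkt => ?_, fun h A => free_help h A⟩⟩
  have hLD := linDisc_of hC hkt
  have hHR : P_HR := W377.FH.hr W320.FH.bu W12.FH.wtt
  tfae_have 1 → 3 := fun h A hA => nhelp_of_both hA (h A hA)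
  tfae_have 3 → 2 := fun h => by
    obtain ⟨hA1, hA2⟩ := Pool.Agent.NPC.H545KS.sat_complete
    obtain ⟨g, p, m₀, hg, hT, hX⟩ := h _ hA1
    exact ⟨_, hA2, g, p, m₀, hg, hT, fun qs hqs _ => hX qs hqs trivial⟩
  tfae_have 2 → 1 := fun ⟨A, hA, h⟩ L hL =>
    compl_of_help hHR W12.FH.surj W762.FH.labn hA hLD hε h hL
  tfae_finish

end Pool.Agent.W901.FH
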