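import Pool.Agent.W901.FC.EngC
import Pool.Agent.W901.FH.NPi
import Pool.Agent.W21.FH.ET
import Pool.Agent.W920.NL.Cand

/-!
# Finite help: candidate lists for single-valued `NP` functions, with a parameter and a table
-/

set_option autoImplicit false

namespace Pool.Agent.W901.FH

open Pool.Agent.NPC Pool.Agent.H579R2.Spt Pool.Agent.H251R5.PQ Pool.Agent.W901.AT
open Pool.Agent.W920.NL (Tc Rd go go_poly valid valid_poly kys kys_poly)
open Pool.Agent.W21.FH (allU allU_length mem_allU)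

/-- the vectors for a list of questions, one for each value of the help bits -/
def EH (W : Rd) (k : ℕ) (tc : Tc) (qs : List (List Bool)) : List (List (Option Bool)) :=
  (kys (fun _ => allU k) qs).map fun z => ((go W tc z).getD []).head?.getD []

theorem eH_length (W : Rd) (k : ℕ) (tc : Tc) (qs : List (List Bool)) :
    (EH W k tc qs).length ≤ 2 ^ k := by
  unfold EH kys
  rw [List.length_map, List.length_map, allU_length]

theorem eH_poly {W : Rd} (hW : Poly W) (k : ℕ) :
    Poly (fun z : Tc × List (List Bool) => EH W k z.1 z.2) := by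
  unfold EH
  have e1 : Poly (fun z : Tc × List (List Bool) => z.1) := NPC.Poly.fst NPC.Poly.id
  have e2 : Poly (fun z : Tc × List (List Bool) => z.2) := NPC.Poly.snd NPC.Poly.id
  refine NPC.Poly.map (l := fun z : Tc × List (List Bool) => kys (fun _ => allU k) z.2)
    (F := fun z y => ((go W z.1 y).getD []).head?.getD [])
    ((kys_poly (NPC.Poly.const _)).comp e2) ?_
  have f1 : Poly (fun q : (Tc × List (List Bool)) × List Bool => q.1) := NPC.Poly.fst NPC.Poly.id
  have f2 : Poly (fun q : (Tc × List (List Bool)) × List Bool => q.2) := NPC.Poly.snd NPC.Poly.id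
  exact NPC.Poly.head?_getD (NPC.Poly.optGetD (go_poly hW (e1.comp f1) f2) (NPC.Poly.const [])) []

/-- The soundness of a reader with parameter `θ`, for the lists all whose keys satisfy `X`. -/
def SndH (A : Set (List Bool)) (t c m₀ k : ℕ) (W : Rd) (θ : List (List Bool))
    (X : List Bool → Prop) : Prop :=
  ∀ qs : List (List Bool), m₀ ≤ qs.length → (∀ q ∈ qs, q.length ^ c ≤ qs.length) →
    (∀ z ∈ kys (fun _ => allU k) qs, X z) → ∃ z ∈ kys (fun _ => allU k) qs,
      ∀ w l, W (θ, (z, w)) = some l → ∃ h, l = [h] ∧ h.length = qs.length ∧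
        (t : ℤ) ≤ |cor h (answers A qs)|

theorem SndH.mono {A : Set (List Bool)} {t c m₀ k : ℕ} {W : Rd} {θ : List (List Bool)}
    {X X' : List Bool → Prop} (h : SndH A t c m₀ k W θ X') (hX : ∀ z, X z → X' z) :
    SndH A t c m₀ k W θ X :=
  fun qs h1 h2 h3 => h qs h1 h2 fun z hz => hX z (h3 z hz)

/-- The members of `S x` are covered by the vectors. -/
theorem eH_good {A : Set (List Bool)} {t c m₀ k : ℕ} {W : Rd} {tc : Tc}
    {S : List (List (List Bool))}
    (hS : ∀ qs ∈ S, m₀ ≤ qs.length ∧ ∀ q ∈ qs, q.length ^ c ≤ qs.length)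
    (hval : ∀ z ∈ S.flatMap (kys fun _ => allU k), valid W tc z = true)
    (hsnd : SndH A t c m₀ k W tc.1 (fun z => z ∈ S.flatMap (kys fun _ => allU k))) :
    ∀ qs ∈ S, ∃ h ∈ EH W k tc qs, h.length = qs.length ∧ (t : ℤ) ≤ |cor h (answers A qs)| := by
  intro qs hqs
  have hin : ∀ z ∈ kys (fun _ => allU k) qs, z ∈ S.flatMap (kys fun _ => allU k) := fun z hz =>
    List.mem_flatMap.2 ⟨qs, hqs, hz⟩
  obtain ⟨z, hz, hgt⟩ := hsnd qs (hS qs hqs).1 (hS qs hqs).2 hin
  obtain ⟨l, hl⟩ := Option.isSome_iff_exists.1 (hval z (hin z hz))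
  obtain ⟨h, rfl, h1, h2⟩ := hgt _ _ hl
  refine ⟨h, List.mem_map.2 ⟨z, hz, ?_⟩, h1, h2⟩
  rw [hl]
  rfl

/-- **Candidate lists for single-valued `NP` functions.** -/
theorem nt_approxH (hHR : P_HR) (hSJ : P_SURJ) (hLN : P_LABN) (A : Set (List Bool))
    (hA : NPHard A) {k t c m₀ : ℕ} (hLD : LinDisc ((2 ^ k : ℕ)) t) {W : Rd} (hW : Poly W)
    {R : List Bool × (List Bool × List Bool) → Bool} (hR : Poly R) (pp : Polynomial ℕ) :
    ∃ (G : Tc × List Bool → List (List Bool)) (Ks : List Bool → List (List Bool))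
      (r : Polynomial ℕ), NPC.Poly G ∧ NPC.Poly Ks ∧
      (∀ q, (G q).length ≤ r.eval q.2.length) ∧
      ∀ tc x y, (∀ z ∈ Ks x, valid W tc z = true) →
        SndH A t c m₀ k W tc.1 (fun z => z ∈ Ks x) → (∃ w, Cert R pp x y w) →
        (∀ y' w', Cert R pp x y' w' → y' = y) → y ∈ G (tc, x) := by
  obtain ⟨f, hf, hfA⟩ := hA _ (hLN R hR pp (2 ^ k))
  have hqfp : Poly (fun q : List Bool × (ℕ × (ℕ × (ℕ × (ℕ × ℕ)))) => f (bits q)) :=
    (PIso.poly_iff.2 hf).comp bits_poly
  obtain ⟨G, S, r, hG, hS, hr, hS2, hG2⟩ := engineC (A := A) (c := c) (m₀ := m₀) hHR hSJ hLD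
    (eH_poly hW k) (eH_length W k) hqfp pp
  refine ⟨fun q => G q.1 q.2, fun x => (S x).flatMap (kys fun _ => allU k), r, hG, ?_,
    fun q => hr q.1 q.2, fun tc x y hval hsnd hy huniq => ?_⟩
  · exact NPC.Poly.flatMap (l := S) (F := fun _ qs => kys (fun _ => allU k) qs) hS
      ((kys_poly (NPC.Poly.const _)).comp (NPC.Poly.snd NPC.Poly.id))
  · refine hG2 tc x y (eH_good (hS2 x) hval hsnd) ?_ ?_
    · obtain ⟨w, hw⟩ := hy
      exact hw.1
    · intro m P j s i
      rw [← hfA, bits_mem_lang]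
      unfold LabN
      constructor
      · rintro ⟨y', w', hw', h⟩
        rw [huniq y' w' hw'] at h
        exact h
      · intro h
        obtain ⟨w, hw⟩ := hy
        exact ⟨y, w, hw, h⟩

end Pool.Agent.W901.FH
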