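import Pool.Agent.W901.NU.ShN
import Pool.Agent.W920.NL.LawAdv
import Pool.Agent.H622R2.CoNP

/-!
# `NP/poly = P/poly` and predictions: the exact threshold
-/

set_option autoImplicit false

namespace Pool.Agent.W901.FH

open Filter Pool.Agent.NPC Pool.Agent.H251R5.PQ Pool.Agent.W901.AT Pool.Agent.W901.NU
open Pool.Agent.W920.NL (InNPPoly pairBits_len)

/-- `NP ⊆ NP/poly`. -/
theorem inNPPoly_of_inNP {L : Set (List Bool)} (h : InNP L) : InNPPoly L := by
  refine ⟨{y | (unpair y).1 ∈ L}, fun _ => [], 0, Pool.Agent.H622R2.InNP.of_reduces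
    ⟨fun y => (unpair y).1, PIso.poly_iff.1 (NPC.Poly.fst poly_unpair), fun _ => Iff.rfl⟩ h,
    fun n => by simp, fun x => ?_⟩
  change x ∈ L ↔ (unpair (pairBits x [])).1 ∈ L
  rw [unpair_pairBits]

/-- `NP ⊆ P/poly` implies `NP/poly ⊆ P/poly`. -/
theorem nppoly_of_np (h : ∀ L : Set (List Bool), InNP L → InPpoly L) {L : Set (List Bool)}
    (hL : InNPPoly L) : InPpoly L := by
  obtain ⟨L', a, r, hL', ha, hLL⟩ := hL
  obtain ⟨V, α, p, hV, hα, hV2⟩ := h L' hL'
  refine ⟨fun z => V (pairBits (pairBits (unpair z).1 (unpair (unpair z).2).1)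
      (unpair (unpair z).2).2),
    fun n => pairBits (a n) (α (2 * n + (a n).length + 1)),
    Polynomial.C 2 * r + p.comp (Polynomial.C 2 * Polynomial.X + r + 1) + 1, ?_, fun n => ?_,
    fun x => ?_⟩
  · refine PIso.poly_iff.1 ?_
    have e1 : NPC.Poly (fun z : List Bool => (unpair z).1) := NPC.Poly.fst poly_unpair
    have e2 : NPC.Poly (fun z : List Bool => unpair (unpair z).2) :=
      poly_unpair.comp (NPC.Poly.snd poly_unpair)
    exact (PIso.poly_iff.2 hV).comp (H622R2.poly_pairBits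
      (H622R2.poly_pairBits e1 (NPC.Poly.fst e2)) (NPC.Poly.snd e2))
  · rw [pairBits_len]
    have h1 := ha n
    have h2 := hα (2 * n + (a n).length + 1)
    have h3 := eval_mono p (show 2 * n + (a n).length + 1 ≤ 2 * n + r.eval n + 1 by omega)
    simp only [Polynomial.eval_add, Polynomial.eval_mul, Polynomial.eval_C, Polynomial.eval_comp,
      Polynomial.eval_one, Polynomial.eval_X]
    omega
  · simp only [unpair_pairBits]
    rw [hLL x, hV2 (pairBits x (a x.length)), pairBits_len]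

/-- **The threshold for `NP/poly = P/poly`.** -/
theorem nppoly_threshold (f : ℕ → ℝ) (ε : ℝ) (hε : 0 < ε)
    (hf1 : ∀ m : ℕ, 1 ≤ m → f m ≤ Real.sqrt m) :
    (Tendsto (fun m : ℕ => f m / Real.sqrt (Real.log m)) atTop atTop →
      (∀ A : Set (List Bool), List.TFAE [InPpoly A, PredA f ε A, FullyPredA f A]) ∧
      List.TFAE
        [∀ L : Set (List Bool), InNPPoly L → InPpoly L,
          ∃ A : Set (List Bool), NPHard A ∧ PredA f ε A,
          ∀ A : Set (List Bool), InNPPoly A → FullyPredA f A]) ∧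
    (∀ c : ℝ, (∀ m : ℕ, 1 ≤ m → f m ≤ c * Real.sqrt (Real.log m)) →
      ∀ A : Set (List Bool), PredP f ε A) ∧
    ((∀ m : ℕ, 1 ≤ m → f m ≤ 1) → ∀ A : Set (List Bool), FullyPredP f A) := by
  obtain ⟨h1, h2⟩ := threshold_law f ε hε hf1
  refine ⟨fun hf => ⟨(h1 hf).1, ?_⟩, h2⟩
  obtain ⟨h3, h4⟩ := h1 hf
  tfae_have 1 → 3 := fun h A hA => ((h3 A).out 0 2).1 (h A hA)
  tfae_have 3 → 2 := fun h => by
    obtain ⟨hA1, hA2⟩ := Pool.Agent.NPC.H545KS.sat_complete
    exact ⟨_, hA2, ((h3 _).out 2 1).1 (h _ (inNPPoly_of_inNP hA1))⟩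
  tfae_have 2 → 1 := fun h L hL => nppoly_of_np (h4.2 h) hL
  tfae_finish

end Pool.Agent.W901.FH
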